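import Mathlib

set_option autoImplicit false

open Finset

namespace Pool.Agent.Results.MP_c47ae4_an.RieszBounded

/-- The generalized powers `M_n`. -/
def MM (m : ℕ → ℕ) : ℕ → ℕ
  | 0 => 1
  | n + 1 => m n * MM m n

/-- The `k`-th digit of `i`. -/
def dig (m : ℕ → ℕ) (k i : ℕ) : ℕ := i / MM m k % m k

section digits

variable {m : ℕ → ℕ}

lemma MM_zero : MM m 0 = 1 := rfl

lemma MM_succ (n : ℕ) : MM m (n + 1) = m n * MM m n := rfl

lemma MM_pos (hm : ∀ k, 2 ≤ m k) (n : ℕ) : 0 < MM m n := by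
  induction n with
  | zero => exact one_pos
  | succ n ih => exact Nat.mul_pos (by have := hm n; omega) ih

lemma two_pow_le (hm : ∀ k, 2 ≤ m k) (n : ℕ) : 2 ^ n ≤ MM m n := by
  induction n with
  | zero => exact le_rfl
  | succ n ih =>
    rw [MM_succ, pow_succ, mul_comm]
    exact Nat.mul_le_mul (hm n) ih

lemma MM_add (s r : ℕ) : MM m (s + r) = MM m s * MM (fun k => m (s + k)) r := by
  induction r with
  | zero => simp [MM_zero]
  | succ r ih =>
    rw [← add_assoc, MM_succ, ih, MM_succ]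
    ring

lemma MM_dvd {k n : ℕ} (h : k ≤ n) : MM m k ∣ MM m n := by
  obtain ⟨r, rfl⟩ := Nat.exists_eq_add_of_le h
  rw [MM_add]
  exact Dvd.intro _ rfl

lemma dig_add_mul (hm : ∀ k, 2 ≤ m k) {k n : ℕ} (h : k < n) (c d : ℕ) :
    dig m k (c + MM m n * d) = dig m k c := by
  obtain ⟨t, ht⟩ := MM_dvd (m := m) (Nat.succ_le_of_lt h)
  rw [Nat.succ_eq_add_one, MM_succ] at ht
  unfold dig
  have h1 : c + MM m n * d = c + MM m k * (m k * (t * d)) := by rw [ht]; ring
  rw [h1, Nat.add_mul_div_left _ _ (MM_pos hm k), Nat.add_mul_mod_self_left]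

lemma dig_top {n c d : ℕ} (hc : c < MM m n) (hd : d < m n) :
    dig m n (c + MM m n * d) = d := by
  unfold dig
  rw [Nat.add_mul_div_left _ _ (by omega), Nat.div_eq_of_lt hc, zero_add, Nat.mod_eq_of_lt hd]

lemma dig_lt (hm : ∀ k, 2 ≤ m k) (k i : ℕ) : dig m k i < m k :=
  Nat.mod_lt _ (by have := hm k; omega)

lemma dig_eq_zero {k n i : ℕ} (h : i < MM m n) (hk : n ≤ k) (hm : ∀ k, 2 ≤ m k) :
    dig m k i = 0 := by
  unfold dig
  have : MM m n ≤ MM m k := Nat.le_of_dvd (MM_pos hm k) (MM_dvd hk)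
  rw [Nat.div_eq_of_lt (by omega)]
  exact Nat.zero_mod _

lemma mod_succ (n i : ℕ) : i % MM m (n + 1) = i % MM m n + MM m n * dig m n i := by
  rw [MM_succ, mul_comm, Nat.mod_mul]
  rfl

lemma digits_ext {n i j : ℕ} (h : ∀ k < n, dig m k i = dig m k j) : i % MM m n = j % MM m n := by
  induction n with
  | zero => simp [MM_zero, Nat.mod_one]
  | succ n ih =>
    rw [mod_succ, mod_succ, ih fun k hk => h k (by omega), h n (by omega)]

lemma dig_mod (hm : ∀ k, 2 ≤ m k) {k n : ℕ} (h : k < n) (c : ℕ) :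
    dig m k (c % MM m n) = dig m k c := by
  conv_rhs => rw [← Nat.mod_add_div c (MM m n)]
  rw [dig_add_mul hm h]

lemma sum_range_mul' {R : Type*} [AddCommMonoid R] (a b : ℕ) (f : ℕ → R) :
    ∑ c ∈ range (a * b), f c = ∑ d ∈ range b, ∑ c ∈ range a, f (c + a * d) := by
  induction b with
  | zero => simp
  | succ b ih =>
    rw [Nat.mul_succ, Finset.sum_range_add, ih, Finset.sum_range_succ]
    congr 1
    apply Finset.sum_congr rfl
    intro c _
    rw [add_comm]

lemma sum_MM_succ {R : Type*} [AddCommMonoid R] (n : ℕ) (f : ℕ → R) :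
    ∑ c ∈ range (MM m (n + 1)), f c =
      ∑ d ∈ range (m n), ∑ c ∈ range (MM m n), f (c + MM m n * d) := by
  rw [MM_succ, mul_comm, sum_range_mul']

lemma sum_MM_add {R : Type*} [AddCommMonoid R] (s r : ℕ) (f : ℕ → R) :
    ∑ c ∈ range (MM m (s + r)), f c =
      ∑ y ∈ range (MM (fun k => m (s + k)) r), ∑ c ∈ range (MM m s), f (c + MM m s * y) := by
  rw [MM_add, sum_range_mul']

/-- Sums of products over digits factor. -/
lemma sum_prod_dig {R : Type*} [CommSemiring R] (hm : ∀ k, 2 ≤ m k) (n : ℕ) (g : ℕ → ℕ → R) :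
    ∑ c ∈ range (MM m n), ∏ k ∈ range n, g k (dig m k c) =
      ∏ k ∈ range n, ∑ d ∈ range (m k), g k d := by
  induction n with
  | zero => simp [MM_zero]
  | succ n ih =>
    rw [sum_MM_succ, prod_range_succ, ← ih, mul_sum]
    apply sum_congr rfl
    intro d hd
    rw [sum_mul]
    apply sum_congr rfl
    intro c hc
    rw [prod_range_succ, dig_top (mem_range.1 hc) (mem_range.1 hd)]
    congr 1
    apply prod_congr rfl
    intro k hk
    rw [dig_add_mul hm (mem_range.1 hk)]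

lemma dig_shift (hm : ∀ k, 2 ≤ m k) (s k : ℕ) {c : ℕ} (hc : c < MM m s) (y : ℕ) :
    dig m (s + k) (c + MM m s * y) = dig (fun k => m (s + k)) k y := by
  unfold dig
  rw [MM_add, ← Nat.div_div_eq_div_mul, Nat.add_mul_div_left _ _ (MM_pos hm s),
    Nat.div_eq_of_lt hc, zero_add]

end digits

section characters

/-- The exponential. -/
noncomputable def ex (t : ℝ) : ℂ := Complex.exp (2 * Real.pi * Complex.I * t)

lemma ex_add (s t : ℝ) : ex (s + t) = ex s * ex t := by
  unfold ex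
  rw [← Complex.exp_add]
  congr 1
  push_cast
  ring

lemma ex_conj (t : ℝ) : (starRingEnd ℂ) (ex t) = ex (-t) := by
  unfold ex
  rw [← Complex.exp_conj]
  congr 1
  simp only [map_mul, Complex.conj_I, Complex.conj_ofReal, map_ofNat]
  push_cast
  ring

lemma norm_ex (t : ℝ) : ‖ex t‖ = 1 := by
  unfold ex
  rw [Complex.norm_exp]
  simp

lemma ex_nat_mul (n : ℕ) (t : ℝ) : ex (n * t) = ex t ^ n := by
  unfold ex
  rw [← Complex.exp_nat_mul]
  congr 1
  push_cast
  ring

/-- Sum over a full period of a nontrivial character. -/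
lemma sum_ex {M : ℕ} (hM : 0 < M) (a b : ℕ) (ha : a < M) (hb : b < M) :
    ∑ d ∈ range M, ex (d * ((a : ℝ) - b) / M) = if a = b then (M : ℂ) else 0 := by
  split_ifs with h
  · subst h
    simp [ex]
  · have h1 : ∀ d : ℕ, ex (d * ((a : ℝ) - b) / M) = ex (((a : ℝ) - b) / M) ^ d := by
      intro d
      rw [← ex_nat_mul]
      congr 1
      ring
    simp_rw [h1]
    have hM' : (M : ℝ) ≠ 0 := by positivity
    have h2 : ex (((a : ℝ) - b) / M) ^ M = 1 := by
      rw [← ex_nat_mul]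
      have : (M : ℝ) * (((a : ℝ) - b) / M) = ((a - b : ℤ) : ℝ) := by
        push_cast
        field_simp
      rw [this]
      unfold ex
      rw [Complex.exp_eq_one_iff]
      exact ⟨(a : ℤ) - b, by push_cast; ring⟩
    have h3 : ex (((a : ℝ) - b) / M) ≠ 1 := by
      intro h4
      unfold ex at h4
      rw [Complex.exp_eq_one_iff] at h4
      obtain ⟨z, hz⟩ := h4
      have hpi : (2 * (Real.pi : ℂ) * Complex.I) ≠ 0 := by
        simp [Real.pi_ne_zero]
      have h5 : (((((a : ℝ) - b) / M : ℝ)) : ℂ) = (z : ℂ) := by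
        have : (2 * (Real.pi : ℂ) * Complex.I) * (((((a : ℝ) - b) / M : ℝ)) : ℂ) =
            (2 * (Real.pi : ℂ) * Complex.I) * (z : ℂ) := by
          rw [hz]; ring
        exact mul_left_cancel₀ hpi this
      have h6 : ((a : ℝ) - b) / M = (z : ℝ) := by exact_mod_cast h5
      rw [div_eq_iff hM'] at h6
      have h7 : (a : ℤ) - b = z * M := by exact_mod_cast h6
      have h8 : |(a : ℤ) - b| < M := by
        rw [abs_lt]; omega
      rw [h7, abs_mul] at h8
      have h9 : z = 0 := by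
        by_contra hz0
        have : 1 ≤ |z| := Int.one_le_abs hz0
        have h10 : |(M : ℤ)| = M := abs_of_nonneg (by omega)
        rw [h10] at h8
        nlinarith
      rw [h9, zero_mul] at h7
      omega
    rw [geom_sum_eq h3, h2, sub_self, zero_div]

/-- The characters. -/
noncomputable def ch (m : ℕ → ℕ) (n i c : ℕ) : ℂ :=
  ∏ k ∈ range n, ex (dig m k i * dig m k c / m k)

variable {m : ℕ → ℕ}

lemma ch_symm (n i c : ℕ) : ch m n i c = ch m n c i := by
  unfold ch
  apply prod_congr rfl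
  intro k _
  rw [mul_comm (dig m k i : ℝ)]

lemma norm_ch (n i c : ℕ) : ‖ch m n i c‖ = 1 := by
  unfold ch
  rw [norm_prod]
  simp [norm_ex]

lemma ch_zero (n c : ℕ) : ch m n 0 c = 1 := by
  unfold ch
  apply prod_eq_one
  intro k _
  have : dig m k 0 = 0 := by simp [dig]
  rw [this]
  simp [ex]

lemma ch_orth (hm : ∀ k, 2 ≤ m k) (n i j : ℕ) (hi : i < MM m n) (hj : j < MM m n) :
    ∑ c ∈ range (MM m n), ch m n i c * (starRingEnd ℂ) (ch m n j c) =
      if i = j then (MM m n : ℂ) else 0 := by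
  have h1 : ∀ c, ch m n i c * (starRingEnd ℂ) (ch m n j c) = ∏ k ∈ range n,
      ex ((dig m k c : ℝ) * ((dig m k i : ℝ) - dig m k j) / m k) := by
    intro c
    unfold ch
    rw [map_prod, ← prod_mul_distrib]
    apply prod_congr rfl
    intro k _
    rw [ex_conj, ← ex_add]
    congr 1
    ring
  simp_rw [h1]
  rw [sum_prod_dig hm n (fun k d => ex ((d : ℝ) * ((dig m k i : ℝ) - dig m k j) / m k))]
  have h2 : ∀ k ∈ range n, ∑ d ∈ range (m k), ex ((d : ℝ) * ((dig m k i : ℝ) - dig m k j) / m k) =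
      if dig m k i = dig m k j then (m k : ℂ) else 0 := by
    intro k _
    exact sum_ex (by have := hm k; omega) _ _ (dig_lt hm k i) (dig_lt hm k j)
  rw [prod_congr rfl h2]
  split_ifs with h
  · subst h
    have h3 : ∏ k ∈ range n, (m k : ℂ) = (MM m n : ℂ) := by
      clear h1 h2 hi hj
      induction n with
      | zero => simp [MM_zero]
      | succ n ih => rw [prod_range_succ, ih, MM_succ]; push_cast; ring
    rw [← h3]
    apply prod_congr rfl
    intro k _
    exact if_pos rfl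
  · have : ∃ k ∈ range n, dig m k i ≠ dig m k j := by
      by_contra hcon
      push Not at hcon
      apply h
      have := digits_ext (m := m) (n := n) (i := i) (j := j) fun k hk => hcon k (mem_range.2 hk)
      rwa [Nat.mod_eq_of_lt hi, Nat.mod_eq_of_lt hj] at this
    obtain ⟨k, hk, hne⟩ := this
    exact prod_eq_zero hk (if_neg hne)

/-- Parseval. -/
lemma parseval (hm : ∀ k, 2 ≤ m k) (n : ℕ) (a : ℕ → ℂ) :
    ∑ c ∈ range (MM m n), ‖∑ j ∈ range (MM m n), a j * ch m n j c‖ ^ 2 =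
      MM m n * ∑ j ∈ range (MM m n), ‖a j‖ ^ 2 := by
  have h : ((∑ c ∈ range (MM m n), ‖∑ j ∈ range (MM m n), a j * ch m n j c‖ ^ 2 : ℝ) : ℂ) =
      ((MM m n * ∑ j ∈ range (MM m n), ‖a j‖ ^ 2 : ℝ) : ℂ) := by
    push_cast
    have h1 : ∀ z : ℂ, ((‖z‖ : ℂ)) ^ 2 = z * (starRingEnd ℂ) z := by
      intro z
      rw [Complex.mul_conj, Complex.normSq_eq_norm_sq]
      push_cast
      ring
    simp_rw [h1]
    have h2 : ∀ c, (∑ j ∈ range (MM m n), a j * ch m n j c) *
        (starRingEnd ℂ) (∑ j ∈ range (MM m n), a j * ch m n j c) =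
        ∑ j ∈ range (MM m n), ∑ j' ∈ range (MM m n), a j * (starRingEnd ℂ) (a j') *
          (ch m n j c * (starRingEnd ℂ) (ch m n j' c)) := by
      intro c
      rw [map_sum, sum_mul_sum]
      apply sum_congr rfl
      intro j _
      apply sum_congr rfl
      intro j' _
      rw [map_mul]
      ring
    simp_rw [h2]
    rw [sum_comm, mul_sum]
    apply sum_congr rfl
    intro j hj
    rw [sum_comm]
    have h3 : ∀ j' ∈ range (MM m n), ∑ c ∈ range (MM m n), a j * (starRingEnd ℂ) (a j') *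
        (ch m n j c * (starRingEnd ℂ) (ch m n j' c)) =
        if j = j' then (MM m n : ℂ) * (a j * (starRingEnd ℂ) (a j)) else 0 := by
      intro j' hj'
      rw [← mul_sum, ch_orth hm n j j' (mem_range.1 hj) (mem_range.1 hj')]
      split_ifs with h
      · subst h; ring
      · ring
    rw [sum_congr rfl h3, sum_ite_eq, if_pos hj]
  exact_mod_cast h

/-- The Fourier coefficients. -/
noncomputable def fh (m : ℕ → ℕ) (n : ℕ) (φ : ℕ → ℂ) (i : ℕ) : ℂ :=
  (∑ c ∈ range (MM m n), φ c * (starRingEnd ℂ) (ch m n i c)) / MM m n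

lemma bessel (hm : ∀ k, 2 ≤ m k) (n : ℕ) (a : ℕ → ℂ) :
    ∑ i ∈ range (MM m n), ‖fh m n a i‖ ^ 2 =
      (∑ c ∈ range (MM m n), ‖a c‖ ^ 2) / MM m n := by
  have hpos : (0 : ℝ) < MM m n := by exact_mod_cast MM_pos hm n
  have h1 : ∀ i, ‖fh m n a i‖ ^ 2 =
      ‖∑ c ∈ range (MM m n), (starRingEnd ℂ) (a c) * ch m n c i‖ ^ 2 / (MM m n) ^ 2 := by
    intro i
    unfold fh
    have h2 : ∑ c ∈ range (MM m n), a c * (starRingEnd ℂ) (ch m n i c) =
        (starRingEnd ℂ) (∑ c ∈ range (MM m n), (starRingEnd ℂ) (a c) * ch m n c i) := by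
      rw [map_sum]
      apply sum_congr rfl
      intro c _
      rw [map_mul, Complex.conj_conj, ch_symm]
    rw [h2, norm_div, RCLike.norm_conj, div_pow, Complex.norm_natCast]
  simp_rw [h1]
  rw [← sum_div, parseval hm n]
  simp_rw [RCLike.norm_conj]
  field_simp

end characters


section kernel

variable {m : ℕ → ℕ}

/-- Partial harmonic sums. -/
noncomputable def hs (i N : ℕ) : ℝ := ∑ k ∈ Ioc i N, (1 : ℝ) / k

lemma mod_eq_sum (n i : ℕ) : i % MM m n = ∑ k ∈ range n, MM m k * dig m k i := by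
  induction n with
  | zero => simp [MM_zero, Nat.mod_one]
  | succ n ih => rw [mod_succ, ih, sum_range_succ]

lemma pow_eq_prod {n i : ℕ} (hi : i < MM m n) (t : ℝ) :
    t ^ i = ∏ k ∈ range n, t ^ (MM m k * dig m k i) := by
  rw [prod_pow_eq_pow_sum, ← mod_eq_sum, Nat.mod_eq_of_lt hi]

/-- The generating sum of the kernel. -/
noncomputable def GG (m : ℕ → ℕ) (s c x : ℕ) (t : ℝ) : ℂ :=
  ∑ i ∈ range (MM m s), (t : ℂ) ^ i *
    ∏ k ∈ range s, ex (dig m k i * ((dig m k c : ℝ) - dig m k x) / m k)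

lemma GG_eq (hm : ∀ k, 2 ≤ m k) (s c x : ℕ) (t : ℝ) :
    GG m s c x t = ∏ k ∈ range s, ∑ d ∈ range (m k), ((t : ℂ) ^ (MM m k * d) *
      ex (d * ((dig m k c : ℝ) - dig m k x) / m k)) := by
  unfold GG
  rw [← sum_prod_dig hm s (fun k d => ((t : ℂ) ^ (MM m k * d) *
      ex (d * ((dig m k c : ℝ) - dig m k x) / m k)))]
  apply sum_congr rfl
  intro i hi
  rw [prod_mul_distrib]
  congr 1
  have := pow_eq_prod (mem_range.1 hi) t
  exact_mod_cast congrArg (fun z : ℝ => (z : ℂ)) this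

/-- The set of digits where `c` and `x` differ. -/
def SS (m : ℕ → ℕ) (s c x : ℕ) : Finset ℕ := (range s).filter fun k => dig m k c ≠ dig m k x

lemma factor_bound {M K a b : ℕ} (hM : 0 < M) (ha : a < M) (hb : b < M) (hab : a ≠ b) (t : ℝ)
    (h0 : 0 ≤ t) (h1 : t ≤ 1) :
    ‖∑ d ∈ range M, ((t : ℂ) ^ (K * d) * ex (d * ((a : ℝ) - b) / M))‖ ≤
      M * ((M * K : ℕ) * (1 - t)) := by
  have h2 : ∑ d ∈ range M, ((t : ℂ) ^ (K * d) * ex (d * ((a : ℝ) - b) / M)) =
      ∑ d ∈ range M, (((t : ℂ) ^ (K * d) - 1) * ex (d * ((a : ℝ) - b) / M)) := by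
    have h3 := sum_ex hM a b ha hb
    rw [if_neg hab] at h3
    simp_rw [sub_mul, one_mul]
    rw [sum_sub_distrib, h3, sub_zero]
  rw [h2]
  refine (norm_sum_le _ _).trans ?_
  have h4 : ∀ d ∈ range M, ‖(((t : ℂ) ^ (K * d) - 1) * ex (d * ((a : ℝ) - b) / M))‖ ≤
      (M * K : ℕ) * (1 - t) := by
    intro d hd
    rw [norm_mul, norm_ex, mul_one]
    have h5 : ((t : ℂ) ^ (K * d) - 1) = ((t ^ (K * d) - 1 : ℝ) : ℂ) := by push_cast; ring
    rw [h5, Complex.norm_real, Real.norm_eq_abs]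
    have h6 : t ^ (K * d) ≤ 1 := pow_le_one₀ h0 h1
    rw [abs_of_nonpos (by linarith)]
    have h7 := one_add_mul_le_pow (a := t - 1) (by linarith) (K * d)
    have h8 : (1 + (t - 1)) = t := by ring
    rw [h8] at h7
    have h9 : ((K * d : ℕ) : ℝ) ≤ (M * K : ℕ) := by
      exact_mod_cast (by rw [mul_comm M K]; exact Nat.mul_le_mul_left K (mem_range.1 hd).le)
    nlinarith
  refine (sum_le_sum h4).trans ?_
  rw [sum_const, card_range, nsmul_eq_mul]

lemma factor_bound' {M K : ℕ} (z : ℕ → ℝ) (t : ℝ) (h0 : 0 ≤ t) (h1 : t ≤ 1) :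
    ‖∑ d ∈ range M, ((t : ℂ) ^ (K * d) * ex (z d))‖ ≤ M := by
  refine (norm_sum_le _ _).trans ?_
  have h4 : ∀ d ∈ range M, ‖((t : ℂ) ^ (K * d) * ex (z d))‖ ≤ 1 := by
    intro d _
    rw [norm_mul, norm_ex, mul_one, norm_pow, Complex.norm_real, Real.norm_eq_abs, abs_of_nonneg h0]
    exact pow_le_one₀ h0 h1
  refine (sum_le_sum h4).trans ?_
  rw [sum_const, card_range, nsmul_eq_mul, mul_one]

lemma prod_m (s : ℕ) : ∏ k ∈ range s, (m k : ℝ) = (MM m s : ℝ) := by
  induction s with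
  | zero => simp [MM_zero]
  | succ n ih => rw [prod_range_succ, ih, MM_succ]; push_cast; ring

lemma GG_bound (hm : ∀ k, 2 ≤ m k) (s c x : ℕ) (t : ℝ) (h0 : 0 ≤ t) (h1 : t ≤ 1) :
    ‖GG m s c x t‖ ≤ MM m s * ((1 - t) ^ (SS m s c x).card *
      ∏ k ∈ SS m s c x, (MM m (k + 1) : ℝ)) := by
  rw [GG_eq hm, norm_prod]
  have h2 : ∀ k ∈ range s, ‖∑ d ∈ range (m k), ((t : ℂ) ^ (MM m k * d) *
      ex (d * ((dig m k c : ℝ) - dig m k x) / m k))‖ ≤
      m k * (if dig m k c ≠ dig m k x then ((1 - t) * MM m (k + 1)) else 1) := by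
    intro k _
    split_ifs with h
    · have := factor_bound (K := MM m k) (by have := hm k; omega) (dig_lt hm k c) (dig_lt hm k x)
        h t h0 h1
      refine this.trans (le_of_eq ?_)
      rw [MM_succ]
      ring
    · rw [mul_one]
      exact factor_bound' (fun d => d * ((dig m k c : ℝ) - dig m k x) / m k) t h0 h1
  refine (prod_le_prod (fun k _ => norm_nonneg _) h2).trans ?_
  rw [prod_mul_distrib, prod_m, prod_ite, prod_const_one, mul_one]
  unfold SS
  rw [prod_mul_distrib, prod_const]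

/-- The Beta integral. -/
lemma beta_int (q : ℕ) : ∀ M : ℕ, ∫ t in (0 : ℝ)..1, t ^ M * (1 - t) ^ q =
    (q.factorial * M.factorial : ℝ) / (M + q + 1).factorial := by
  induction q with
  | zero =>
    intro M
    simp only [pow_zero, mul_one, integral_pow]
    rw [add_zero, Nat.factorial_succ]
    have : (M.factorial : ℝ) ≠ 0 := by positivity
    push_cast
    field_simp
    simp
  | succ q ih =>
    intro M
    have h1 : ∀ t : ℝ, t ^ M * (1 - t) ^ (q + 1) = t ^ M * (1 - t) ^ q - t ^ (M + 1) * (1 - t) ^ q := by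
      intro t; ring
    simp_rw [h1]
    rw [intervalIntegral.integral_sub (Continuous.intervalIntegrable (by fun_prop) _ _)
      (Continuous.intervalIntegrable (by fun_prop) _ _), ih, ih]
    have e1 : M + 1 + q + 1 = (M + q + 1) + 1 := by ring
    have e2 : M + (q + 1) + 1 = (M + q + 1) + 1 := by ring
    rw [e1, e2, Nat.factorial_succ (M + q + 1), Nat.factorial_succ M, Nat.factorial_succ q]
    have : ((M + q + 1).factorial : ℝ) ≠ 0 := by positivity
    push_cast
    field_simp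
    ring

lemma beta_bound (q M : ℕ) (hM : 0 < M) : ∫ t in (0 : ℝ)..1, t ^ M * (1 - t) ^ q ≤
    (q.factorial : ℝ) / M ^ (q + 1) := by
  rw [beta_int, div_le_div_iff₀ (by positivity) (by positivity)]
  have h := Nat.factorial_mul_pow_le_factorial (m := M) (n := q + 1)
  have h2 : M.factorial * M ^ (q + 1) ≤ (M + q + 1).factorial := by
    refine le_trans ?_ (le_trans h (le_of_eq ?_))
    · exact Nat.mul_le_mul_left _ (Nat.pow_le_pow_left (by omega) _)
    · congr 1
  have h3 : ((M.factorial * M ^ (q + 1) : ℕ) : ℝ) ≤ ((M + q + 1).factorial : ℕ) := by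
    exact_mod_cast h2
  push_cast at h3
  calc (q.factorial : ℝ) * M.factorial * M ^ (q + 1)
      = q.factorial * (M.factorial * M ^ (q + 1)) := by ring
    _ ≤ q.factorial * (M + q + 1).factorial :=
        mul_le_mul_of_nonneg_left h3 (by positivity)

lemma geom_Ioc (i N : ℕ) (h : i ≤ N) (t : ℝ) :
    (1 - t) * ∑ k ∈ Ioc i N, t ^ (k - 1) = t ^ i - t ^ N := by
  induction N, h using Nat.le_induction with
  | base => simp
  | succ N hN ih =>
    rw [Finset.sum_Ioc_succ_top hN, mul_add, ih]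
    simp only [Nat.add_sub_cancel]
    ring

lemma hs_eq_integral (i N : ℕ) : hs i N = ∫ t in (0 : ℝ)..1, ∑ k ∈ Ioc i N, t ^ (k - 1) := by
  rw [intervalIntegral.integral_finsetSum
    (fun k _ => Continuous.intervalIntegrable (by fun_prop) _ _)]
  unfold hs
  apply sum_congr rfl
  intro k hk
  have hk1 : 1 ≤ k := by have := (mem_Ioc.1 hk).1; omega
  rw [integral_pow]
  have : k - 1 + 1 = k := by omega
  have h2 : (((k - 1 : ℕ) : ℝ) + 1) = k := by exact_mod_cast this
  rw [h2, this]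
  simp [show k ≠ 0 by omega]

/-- The main kernel estimate. -/
lemma kernel_bound (hm : ∀ k, 2 ≤ m k) (s c x j N : ℕ) (hj : 1 ≤ j)
    (hN : MM m s * (j + 1) ≤ N) (hS : (SS m s c x).Nonempty) :
    ‖∑ i ∈ range (MM m s), (hs (i + MM m s * j) N : ℂ) *
      ∏ k ∈ range s, ex (dig m k i * ((dig m k c : ℝ) - dig m k x) / m k)‖ ≤
      MM m s * (((SS m s c x).card - 1).factorial *
        ∏ k ∈ SS m s c x, ((MM m (k + 1) : ℝ) / MM m s)) := by
  set E : ℕ → ℂ := fun i => ∏ k ∈ range s, ex (dig m k i * ((dig m k c : ℝ) - dig m k x) / m k)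
    with hE
  set q := (SS m s c x).card with hq
  have hq1 : 1 ≤ q := Finset.card_pos.2 hS
  set P : ℝ := ∏ k ∈ SS m s c x, (MM m (k + 1) : ℝ) with hP
  have hP0 : 0 ≤ P := prod_nonneg fun k _ => by positivity
  have hMpos : 0 < MM m s := MM_pos hm s
  have h1 : ∑ i ∈ range (MM m s), (hs (i + MM m s * j) N : ℂ) * E i =
      ∫ t in (0 : ℝ)..1, ∑ i ∈ range (MM m s),
        ((∑ k ∈ Ioc (i + MM m s * j) N, t ^ (k - 1) : ℝ) : ℂ) * E i := by
    rw [intervalIntegral.integral_finsetSum]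
    · apply sum_congr rfl
      intro i _
      rw [intervalIntegral.integral_mul_const, hs_eq_integral, intervalIntegral.integral_ofReal]
    · intro i _
      apply Continuous.intervalIntegrable
      fun_prop
  rw [h1]
  have h2 : ∀ t ∈ Set.Ioo (0 : ℝ) 1, ‖∑ i ∈ range (MM m s),
        ((∑ k ∈ Ioc (i + MM m s * j) N, t ^ (k - 1) : ℝ) : ℂ) * E i‖ ≤
        MM m s * P * (t ^ (MM m s) * (1 - t) ^ (q - 1)) := by
    intro t ht
    have h3 : ((1 - t : ℝ) : ℂ) * ∑ i ∈ range (MM m s),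
        ((∑ k ∈ Ioc (i + MM m s * j) N, t ^ (k - 1) : ℝ) : ℂ) * E i =
        (t : ℂ) ^ (MM m s * j) * GG m s c x t - (t : ℂ) ^ N * GG m s c x 1 := by
      unfold GG
      rw [mul_sum, mul_sum, mul_sum, ← sum_sub_distrib]
      apply sum_congr rfl
      intro i hi
      have hi' := mem_range.1 hi
      have h4 := geom_Ioc (i + MM m s * j) N (by nlinarith) t
      rw [← mul_assoc, ← Complex.ofReal_mul, h4]
      push_cast
      rw [pow_add]
      simp only [one_pow, one_mul, hE]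
      ring
    have h5 : GG m s c x 1 = 0 := by
      have := GG_bound hm s c x 1 (by norm_num) le_rfl
      rw [sub_self, zero_pow (by omega), zero_mul, mul_zero] at this
      exact norm_le_zero_iff.1 this
    rw [h5, mul_zero, sub_zero] at h3
    have h6 := congrArg norm h3
    rw [norm_mul, norm_mul, Complex.norm_real, norm_pow, Complex.norm_real, Real.norm_eq_abs,
      Real.norm_eq_abs, abs_of_pos (by linarith [ht.2] : 0 < 1 - t), abs_of_pos ht.1] at h6
    have h7 := GG_bound hm s c x t ht.1.le ht.2.le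
    have h8 : t ^ (MM m s * j) ≤ t ^ (MM m s) :=
      pow_le_pow_of_le_one ht.1.le ht.2.le (by nlinarith)
    have h9 : (1 - t) ^ q = (1 - t) * (1 - t) ^ (q - 1) := by
      rw [← pow_succ']
      congr 1
      omega
    have h10 : (1 - t) * ‖∑ i ∈ range (MM m s),
        ((∑ k ∈ Ioc (i + MM m s * j) N, t ^ (k - 1) : ℝ) : ℂ) * E i‖ ≤
        (1 - t) * (MM m s * P * (t ^ (MM m s) * (1 - t) ^ (q - 1))) := by
      rw [h6]
      calc t ^ (MM m s * j) * ‖GG m s c x t‖
          ≤ t ^ (MM m s) * (MM m s * ((1 - t) ^ q * P)) :=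
            mul_le_mul h8 h7 (norm_nonneg _) (by have := ht.1; positivity)
        _ = (1 - t) * (MM m s * P * (t ^ (MM m s) * (1 - t) ^ (q - 1))) := by
            rw [h9]; ring
    exact le_of_mul_le_mul_left h10 (by linarith [ht.2])
  have h11 : ‖∫ t in (0 : ℝ)..1, ∑ i ∈ range (MM m s),
        ((∑ k ∈ Ioc (i + MM m s * j) N, t ^ (k - 1) : ℝ) : ℂ) * E i‖ ≤
      ∫ t in (0 : ℝ)..1, MM m s * P * (t ^ (MM m s) * (1 - t) ^ (q - 1)) := by
    apply intervalIntegral.norm_integral_le_of_norm_le (by norm_num)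
    · have : ∀ᵐ t : ℝ, t ≠ 1 := by
        rw [MeasureTheory.ae_iff]
        simp
      filter_upwards [this] with t ht1 ht
      exact h2 t ⟨ht.1, lt_of_le_of_ne ht.2 ht1⟩
    · apply Continuous.intervalIntegrable
      fun_prop
  refine h11.trans ?_
  rw [intervalIntegral.integral_const_mul]
  have h12 := beta_bound (q - 1) (MM m s) hMpos
  have h13 : q - 1 + 1 = q := by omega
  rw [h13] at h12
  have h14 : ∏ k ∈ SS m s c x, ((MM m (k + 1) : ℝ) / MM m s) = P / (MM m s : ℝ) ^ q := by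
    rw [prod_div_distrib, prod_const]
  rw [h14]
  calc MM m s * P * ∫ t in (0 : ℝ)..1, t ^ (MM m s) * (1 - t) ^ (q - 1)
      ≤ MM m s * P * (((q - 1).factorial : ℝ) / (MM m s : ℝ) ^ q) :=
        mul_le_mul_of_nonneg_left h12 (by positivity)
    _ = MM m s * (((q - 1).factorial : ℝ) * (P / (MM m s : ℝ) ^ q)) := by ring

end kernel

section weights

variable {m : ℕ → ℕ}

/-- The weights. -/
noncomputable def ww (e : ℕ) : ℝ := (max 1 e : ℕ) / 2 ^ e

lemma ww_pos (e : ℕ) : 0 < ww e := by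
  unfold ww
  have : (0 : ℝ) < (max 1 e : ℕ) := by exact_mod_cast (lt_of_lt_of_le one_pos (le_max_left 1 e))
  positivity

lemma factorial_le_prod (E : Finset ℕ) : (E.card - 1).factorial ≤ ∏ e ∈ E, max 1 e := by
  induction E using Finset.induction_on_max with
  | empty => simp
  | insert a E hE ih =>
    have ha : a ∉ E := fun h => lt_irrefl _ (hE a h)
    rw [card_insert_of_notMem ha, prod_insert ha, Nat.add_sub_cancel]
    have hcard : E.card ≤ a := by
      have : E ⊆ range a := fun x hx => mem_range.2 (hE x hx)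
      simpa using card_le_card this
    rcases Nat.eq_zero_or_pos E.card with h0 | h0
    · rw [h0, Nat.factorial_zero]
      exact Nat.succ_le_of_lt (Nat.mul_pos (lt_of_lt_of_le one_pos (le_max_left 1 a))
        (prod_pos fun e _ => lt_of_lt_of_le one_pos (le_max_left 1 e)))
    · have h1 : E.card.factorial = E.card * (E.card - 1).factorial :=
        (Nat.mul_factorial_pred (by omega)).symm
      rw [h1]
      exact Nat.mul_le_mul (hcard.trans (le_max_right 1 a)) ih

lemma factorial_bound (s : ℕ) (S : Finset ℕ) (hS : S ⊆ range s) :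
    (S.card - 1).factorial ≤ ∏ k ∈ S, max 1 (s - 1 - k) := by
  have hinj : Set.InjOn (fun k => s - 1 - k) (S : Set ℕ) := by
    intro a ha b hb hab
    have h1 := mem_range.1 (hS ha)
    have h2 := mem_range.1 (hS hb)
    simp only at hab
    omega
  have h := factorial_le_prod (S.image fun k => s - 1 - k)
  rw [card_image_of_injOn hinj, prod_image hinj] at h
  exact h

lemma ratio_bound (hm : ∀ k, 2 ≤ m k) {s k : ℕ} (hk : k < s) :
    (MM m (k + 1) : ℝ) / MM m s ≤ 1 / 2 ^ (s - 1 - k) := by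
  obtain ⟨r, rfl⟩ := Nat.exists_eq_add_of_le (Nat.succ_le_of_lt hk)
  have h1 : k.succ + r - 1 - k = r := by omega
  rw [h1, Nat.succ_eq_add_one, show MM m (k + 1 + r) = _ from MM_add (k + 1) r]
  have h2 := two_pow_le (m := fun j => m (k + 1 + j)) (fun j => hm _) r
  have h3 : (0 : ℝ) < MM m (k + 1) := by exact_mod_cast MM_pos hm (k + 1)
  have h4 : (0 : ℝ) < MM (fun j => m (k + 1 + j)) r := by
    exact_mod_cast MM_pos (m := fun j => m (k + 1 + j)) (fun j => hm _) r
  push_cast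
  rw [div_le_div_iff₀ (by positivity) (by positivity)]
  have h5 : ((2 : ℝ) ^ r) ≤ MM (fun j => m (k + 1 + j)) r := by exact_mod_cast h2
  nlinarith

/-- The majorant of the kernel. -/
noncomputable def WW (m : ℕ → ℕ) (s c x : ℕ) : ℝ :=
  ∏ k ∈ range s, if dig m k c ≠ dig m k x then ww (s - 1 - k) else 1

lemma WW_nonneg (s c x : ℕ) : 0 ≤ WW m s c x :=
  prod_nonneg fun k _ => by split_ifs; exacts [(ww_pos _).le, zero_le_one]

lemma WW_eq (s c x : ℕ) : WW m s c x = ∏ k ∈ SS m s c x, ww (s - 1 - k) := by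
  unfold WW SS
  rw [prod_ite, prod_const_one, mul_one]

lemma kernel_bound' (hm : ∀ k, 2 ≤ m k) (s c x j N : ℕ) (hj : 1 ≤ j)
    (hN : MM m s * (j + 1) ≤ N) :
    ‖∑ i ∈ range (MM m s), ((hs (i + MM m s * j) N / hs 0 N : ℝ) : ℂ) *
      ∏ k ∈ range s, ex (dig m k i * ((dig m k c : ℝ) - dig m k x) / m k)‖ ≤
      MM m s * WW m s c x := by
  have hN1 : 1 ≤ N := by have := MM_pos hm s; nlinarith
  have hl : 1 ≤ hs 0 N := by
    unfold hs
    calc (1 : ℝ) = 1 / ((1 : ℕ) : ℝ) := by norm_num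
      _ ≤ ∑ k ∈ Ioc 0 N, (1 : ℝ) / k :=
        single_le_sum (f := fun k : ℕ => (1 : ℝ) / k) (fun k _ => by positivity)
          (mem_Ioc.2 ⟨one_pos, hN1⟩)
  have hle : ∀ i, hs i N ≤ hs 0 N := by
    intro i
    unfold hs
    apply sum_le_sum_of_subset_of_nonneg
    · exact Ioc_subset_Ioc_left (Nat.zero_le i)
    · intro k _ _; positivity
  have hnn : ∀ i, 0 ≤ hs i N := fun i => sum_nonneg fun k _ => by positivity
  by_cases hS : (SS m s c x).Nonempty
  · have h1 := kernel_bound hm s c x j N hj hN hS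
    have h2 : ∑ i ∈ range (MM m s), ((hs (i + MM m s * j) N / hs 0 N : ℝ) : ℂ) *
        ∏ k ∈ range s, ex (dig m k i * ((dig m k c : ℝ) - dig m k x) / m k) =
        ((1 / hs 0 N : ℝ) : ℂ) * ∑ i ∈ range (MM m s), (hs (i + MM m s * j) N : ℂ) *
        ∏ k ∈ range s, ex (dig m k i * ((dig m k c : ℝ) - dig m k x) / m k) := by
      rw [mul_sum]
      apply sum_congr rfl
      intro i _
      push_cast
      ring
    rw [h2, norm_mul, Complex.norm_real, Real.norm_eq_abs, abs_of_nonneg (by positivity)]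
    have h3 : 1 / hs 0 N ≤ 1 := by
      rw [div_le_one (by linarith)]
      exact hl
    have h4 : (((SS m s c x).card - 1).factorial : ℝ) *
        ∏ k ∈ SS m s c x, ((MM m (k + 1) : ℝ) / MM m s) ≤ WW m s c x := by
      have hsub : SS m s c x ⊆ range s := filter_subset _ _
      have h5 : (((SS m s c x).card - 1).factorial : ℝ) ≤
          ∏ k ∈ SS m s c x, ((max 1 (s - 1 - k) : ℕ) : ℝ) := by
        exact_mod_cast factorial_bound s _ hsub
      have h6 : ∏ k ∈ SS m s c x, ((MM m (k + 1) : ℝ) / MM m s) ≤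
          ∏ k ∈ SS m s c x, (1 / 2 ^ (s - 1 - k) : ℝ) :=
        prod_le_prod (fun k _ => by positivity) fun k hk => ratio_bound hm (mem_range.1 (hsub hk))
      rw [WW_eq]
      have h7 : ∏ k ∈ SS m s c x, ww (s - 1 - k) =
          (∏ k ∈ SS m s c x, ((max 1 (s - 1 - k) : ℕ) : ℝ)) *
            ∏ k ∈ SS m s c x, (1 / 2 ^ (s - 1 - k) : ℝ) := by
        rw [← prod_mul_distrib]
        apply prod_congr rfl
        intro k _
        unfold ww
        ring
      rw [h7]
      exact mul_le_mul h5 h6 (prod_nonneg fun k _ => by positivity)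
        (prod_nonneg fun k _ => by positivity)
    calc 1 / hs 0 N * _ ≤ 1 * _ := mul_le_mul_of_nonneg_right h3 (norm_nonneg _)
      _ ≤ _ := by rw [one_mul]; exact h1
      _ ≤ _ := mul_le_mul_of_nonneg_left h4 (by positivity)
  · rw [not_nonempty_iff_eq_empty] at hS
    rw [WW_eq, hS, prod_empty, mul_one]
    refine (norm_sum_le _ _).trans ?_
    have h2 : ∀ i ∈ range (MM m s), ‖((hs (i + MM m s * j) N / hs 0 N : ℝ) : ℂ) *
        ∏ k ∈ range s, ex (dig m k i * ((dig m k c : ℝ) - dig m k x) / m k)‖ ≤ 1 := by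
      intro i _
      rw [norm_mul, norm_prod, prod_congr rfl fun k _ => norm_ex _, prod_const_one, mul_one,
        Complex.norm_real, Real.norm_eq_abs, abs_of_nonneg (div_nonneg (hnn _) (hnn _))]
      rw [div_le_one (by linarith)]
      exact hle _
    refine (sum_le_sum h2).trans ?_
    simp

/-- The constant. -/
noncomputable def CC (b : ℕ) (p : ℝ) : ℝ := Real.exp (b * ∑' e, ww e ^ p)

lemma ww_summable (p : ℝ) (hp : 0 < p) (hp1 : p ≤ 1) : Summable fun e => ww e ^ p := by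
  set r : ℝ := (1 / 2 : ℝ) ^ p with hr
  have hr0 : 0 < r := by positivity
  have hr1 : r < 1 := Real.rpow_lt_one (by norm_num) (by norm_num) hp
  have hrn : ‖r‖ < 1 := by rw [Real.norm_eq_abs, abs_of_pos hr0]; exact hr1
  have h1 : Summable fun e : ℕ => ((e : ℝ) + 1) * r ^ e := by
    have h2 := (summable_pow_mul_geometric_of_norm_lt_one 1 hrn).add
      (summable_geometric_of_norm_lt_one hrn)
    refine h2.congr fun e => ?_
    ring
  refine Summable.of_nonneg_of_le (fun e => Real.rpow_nonneg (ww_pos e).le _) (fun e => ?_) h1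
  have h3 : ww e ≤ ((e : ℝ) + 1) * (1 / 2) ^ e := by
    unfold ww
    rw [div_eq_mul_inv, one_div, inv_pow]
    apply mul_le_mul_of_nonneg_right _ (by positivity)
    have : max 1 e ≤ e + 1 := by omega
    exact_mod_cast this
  have he1 : (1 : ℝ) ≤ (e : ℝ) + 1 := by have : (0 : ℝ) ≤ e := Nat.cast_nonneg e; linarith
  calc ww e ^ p ≤ (((e : ℝ) + 1) * (1 / 2) ^ e) ^ p := Real.rpow_le_rpow (ww_pos e).le h3 hp.le
    _ = ((e : ℝ) + 1) ^ p * ((1 / 2 : ℝ) ^ e) ^ p := Real.mul_rpow (by positivity) (by positivity)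
    _ ≤ ((e : ℝ) + 1) * r ^ e := by
        apply mul_le_mul
        · calc ((e : ℝ) + 1) ^ p ≤ ((e : ℝ) + 1) ^ (1 : ℝ) :=
              Real.rpow_le_rpow_of_exponent_le he1 hp1
            _ = (e : ℝ) + 1 := Real.rpow_one _
        · rw [hr, ← Real.rpow_natCast, ← Real.rpow_natCast, ← Real.rpow_mul (by norm_num),
            ← Real.rpow_mul (by norm_num), mul_comm]
        · positivity
        · positivity

lemma sum_WW (hm : ∀ k, 2 ≤ m k) (b : ℕ) (hb : ∀ k, m k ≤ b) (p : ℝ) (hp : 0 < p) (hp1 : p ≤ 1)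
    (s x : ℕ) :
    ∑ c ∈ range (MM m s), WW m s c x ^ p ≤ CC b p := by
  have h1 : ∀ c, WW m s c x ^ p = ∏ k ∈ range s,
      (fun k d => if d ≠ dig m k x then ww (s - 1 - k) ^ p else 1) k (dig m k c) := by
    intro c
    unfold WW
    rw [← Real.finsetProd_rpow]
    · apply prod_congr rfl
      intro k _
      simp only []
      split_ifs
      · rfl
      · exact Real.one_rpow p
    · intro k _
      split_ifs; exacts [(ww_pos _).le, zero_le_one]
  rw [sum_congr rfl fun c _ => h1 c,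
    sum_prod_dig hm s (fun k d => if d ≠ dig m k x then ww (s - 1 - k) ^ p else 1)]
  have h2 : ∀ k ∈ range s, ∑ d ∈ range (m k), (if d ≠ dig m k x then ww (s - 1 - k) ^ p else 1) ≤
      Real.exp (b * ww (s - 1 - k) ^ p) := by
    intro k _
    have hw : 0 ≤ ww (s - 1 - k) ^ p := Real.rpow_nonneg (ww_pos _).le _
    have hlt := dig_lt hm k x
    rw [← add_sum_erase _ _ (mem_range.2 hlt)]
    simp only [ne_eq, not_true_eq_false, if_false]
    have h3 : ∑ d ∈ (range (m k)).erase (dig m k x),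
        (if ¬d = dig m k x then ww (s - 1 - k) ^ p else 1) ≤ b * ww (s - 1 - k) ^ p := by
      rw [sum_congr rfl fun d hd => if_pos (ne_of_mem_erase hd), sum_const, nsmul_eq_mul]
      apply mul_le_mul_of_nonneg_right _ hw
      have : ((range (m k)).erase (dig m k x)).card ≤ b :=
        (card_le_card (erase_subset _ _)).trans (by rw [card_range]; exact hb k)
      exact_mod_cast this
    have h4 := Real.add_one_le_exp (b * ww (s - 1 - k) ^ p)
    linarith
  refine (prod_le_prod (fun k _ => sum_nonneg fun d _ => ?_) h2).trans ?_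
  · split_ifs; exacts [Real.rpow_nonneg (ww_pos _).le _, zero_le_one]
  rw [← Real.exp_sum, ← mul_sum]
  unfold CC
  apply Real.exp_le_exp.2
  apply mul_le_mul_of_nonneg_left _ (by positivity)
  rw [sum_range_reflect (fun e => ww e ^ p) s]
  exact (ww_summable p hp hp1).sum_le_tsum _ fun e _ => Real.rpow_nonneg (ww_pos _).le _

end weights

section atoms

variable {m : ℕ → ℕ}

/-- The Riesz mean of order `M_n` of a function on the first `n` digits. -/
noncomputable def Rop (m : ℕ → ℕ) (n : ℕ) (φ : ℕ → ℂ) (c : ℕ) : ℂ :=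
  ∑ i ∈ range (MM m n), ((hs i (MM m n) / hs 0 (MM m n) : ℝ) : ℂ) * fh m n φ i * ch m n i c

lemma fh_add (n : ℕ) (φ ψ : ℕ → ℂ) (i : ℕ) :
    fh m n (fun c => φ c + ψ c) i = fh m n φ i + fh m n ψ i := by
  unfold fh
  rw [← add_div, ← sum_add_distrib]
  congr 1
  apply sum_congr rfl
  intro c _
  ring

lemma Rop_add (n : ℕ) (φ ψ : ℕ → ℂ) (c : ℕ) :
    Rop m n (fun c => φ c + ψ c) c = Rop m n φ c + Rop m n ψ c := by
  unfold Rop
  rw [← sum_add_distrib]
  apply sum_congr rfl
  intro i _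
  rw [fh_add]
  ring

lemma fh_zero (n : ℕ) (i : ℕ) : fh m n (fun _ => 0) i = 0 := by
  simp [fh]

lemma Rop_zero (n : ℕ) (c : ℕ) : Rop m n (fun _ => 0) c = 0 := by
  simp [Rop, fh_zero]

lemma Rop_sum {ι : Type*} (n : ℕ) (s : Finset ι) (φ : ι → ℕ → ℂ) (c : ℕ) :
    Rop m n (fun c => ∑ i ∈ s, φ i c) c = ∑ i ∈ s, Rop m n (φ i) c := by
  classical
  induction s using Finset.induction_on with
  | empty => simp [Rop_zero]
  | insert a s ha ih =>
    rw [sum_insert ha, ← ih, ← Rop_add]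
    congr 1
    funext c
    rw [sum_insert ha]

lemma fh_congr {n : ℕ} {φ ψ : ℕ → ℂ} (h : ∀ c < MM m n, φ c = ψ c) (i : ℕ) :
    fh m n φ i = fh m n ψ i := by
  unfold fh
  congr 1
  apply sum_congr rfl
  intro c hc
  rw [h c (mem_range.1 hc)]

lemma Rop_congr {n : ℕ} {φ ψ : ℕ → ℂ} (h : ∀ c < MM m n, φ c = ψ c) (c : ℕ) :
    Rop m n φ c = Rop m n ψ c := by
  unfold Rop
  apply sum_congr rfl
  intro i _
  rw [fh_congr h]

lemma ch_split (hm : ∀ k, 2 ≤ m k) (s r : ℕ) {i c : ℕ} (hi : i < MM m s) (hc : c < MM m s)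
    (j y : ℕ) : ch m (s + r) (i + MM m s * j) (c + MM m s * y) =
      ch m s i c * ch (fun k => m (s + k)) r j y := by
  unfold ch
  rw [prod_range_add]
  congr 1
  · apply prod_congr rfl
    intro k hk
    rw [dig_add_mul hm (mem_range.1 hk), dig_add_mul hm (mem_range.1 hk)]
  · apply prod_congr rfl
    intro k _
    rw [dig_shift hm s k hi, dig_shift hm s k hc]

lemma fh_split (hm : ∀ k, 2 ≤ m k) (s r x : ℕ) (hx : x < MM m s) (a : ℕ → ℂ)
    (ha : ∀ c < MM m (s + r), c % MM m s ≠ x → a c = 0) {i : ℕ} (hi : i < MM m s) (j : ℕ) :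
    fh m (s + r) a (i + MM m s * j) = (starRingEnd ℂ) (ch m s i x) / MM m s *
      fh (fun k => m (s + k)) r (fun y => a (x + MM m s * y)) j := by
  unfold fh
  rw [sum_MM_add]
  have h1 : ∀ y ∈ range (MM (fun k => m (s + k)) r), ∑ c ∈ range (MM m s),
      a (c + MM m s * y) *
        (starRingEnd ℂ) (ch m (s + r) (i + MM m s * j) (c + MM m s * y)) =
      (starRingEnd ℂ) (ch m s i x) * (a (x + MM m s * y) *
        (starRingEnd ℂ) (ch (fun k => m (s + k)) r j y)) := by
    intro y hy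
    rw [sum_eq_single_of_mem x (mem_range.2 hx)]
    · rw [ch_split hm s r hi hx, map_mul]
      ring
    · intro c hc hne
      have hlt : c + MM m s * y < MM m (s + r) := by
        rw [MM_add]
        have h1 := mem_range.1 hc
        have h2 := mem_range.1 hy
        nlinarith
      rw [ha _ hlt, zero_mul]
      rw [Nat.add_mul_mod_self_left, Nat.mod_eq_of_lt (mem_range.1 hc)]
      exact hne
  rw [sum_congr rfl h1, ← mul_sum, MM_add]
  have h2 : (MM m s : ℂ) ≠ 0 := by exact_mod_cast (MM_pos hm s).ne'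
  have h3 : (MM (fun k => m (s + k)) r : ℂ) ≠ 0 := by
    exact_mod_cast (MM_pos (m := fun k => m (s + k)) (fun k => hm _) r).ne'
  push_cast
  field_simp

lemma pow_trick (N : ℕ) (f : ℕ → ℝ) (hf : ∀ y, 0 ≤ f y) (T p : ℝ) (hT : 0 ≤ T) (hp : 0 < p)
    (hp2 : p ≤ 2) (h : ∑ y ∈ range N, f y ^ 2 ≤ N * T ^ 2) :
    ∑ y ∈ range N, f y ^ p ≤ 2 * N * T ^ p := by
  rcases eq_or_lt_of_le hT with h0 | h0
  · rw [← h0] at h ⊢
    have h1 : ∀ y ∈ range N, f y ^ p = 0 := by
      intro y hy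
      have h2 : f y ^ 2 ≤ 0 := by
        have h3 : f y ^ 2 ≤ ∑ y ∈ range N, f y ^ 2 :=
          single_le_sum (f := fun y => f y ^ 2) (fun y _ => sq_nonneg _) hy
        nlinarith
      have h3 : f y = 0 := by nlinarith [hf y, sq_nonneg (f y)]
      rw [h3, Real.zero_rpow hp.ne']
    rw [sum_eq_zero h1, Real.zero_rpow hp.ne', mul_zero]
  · have h1 : ∀ y ∈ range N, f y ^ p ≤ T ^ p + T ^ (p - 2) * f y ^ 2 := by
      intro y _
      rcases le_total (f y) T with h2 | h2
      · have h3 : f y ^ p ≤ T ^ p := Real.rpow_le_rpow (hf y) h2 hp.le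
        have h4 : 0 ≤ T ^ (p - 2) * f y ^ 2 := by positivity
        linarith
      · have hfy : 0 < f y := lt_of_lt_of_le h0 h2
        have h3 : f y ^ p = f y ^ (p - 2) * f y ^ 2 := by
          rw [← Real.rpow_natCast (f y) 2, ← Real.rpow_add hfy]
          congr 1
          push_cast
          ring
        have h4 : f y ^ (p - 2) ≤ T ^ (p - 2) :=
          Real.rpow_le_rpow_of_nonpos h0 h2 (by linarith)
        have h5 : 0 ≤ T ^ p := by positivity
        rw [h3]
        nlinarith [sq_nonneg (f y)]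
    refine (sum_le_sum h1).trans ?_
    rw [sum_add_distrib, ← mul_sum, sum_const, card_range, nsmul_eq_mul]
    have h2 : T ^ (p - 2) * T ^ 2 = T ^ p := by
      rw [← Real.rpow_natCast T 2, ← Real.rpow_add h0]
      congr 1
      push_cast
      ring
    have h3 : T ^ (p - 2) * ∑ y ∈ range N, f y ^ 2 ≤ T ^ (p - 2) * (N * T ^ 2) :=
      mul_le_mul_of_nonneg_left h (by positivity)
    have h4 : T ^ (p - 2) * (N * T ^ 2) = N * T ^ p := by rw [← h2]; ring
    linarith

lemma atom_bound (hm : ∀ k, 2 ≤ m k) (b : ℕ) (hb : ∀ k, m k ≤ b) (p : ℝ) (hp : 0 < p)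
    (hp1 : p ≤ 1) (s r x : ℕ) (hx : x < MM m s) (a : ℕ → ℂ)
    (ha : ∀ c < MM m (s + r), c % MM m s ≠ x → a c = 0)
    (hmean : ∑ y ∈ range (MM (fun k => m (s + k)) r), a (x + MM m s * y) = 0)
    (A : ℝ) (hA0 : 0 ≤ A) (hA : ∀ c < MM m (s + r), ‖a c‖ ≤ A) :
    ∑ c ∈ range (MM m (s + r)), ‖Rop m (s + r) a c‖ ^ p ≤
      2 * CC b p * A ^ p * MM (fun k => m (s + k)) r := by
  set m' : ℕ → ℕ := fun k => m (s + k) with hm'
  have hm2' : ∀ k, 2 ≤ m' k := fun k => hm _
  set α : ℕ → ℂ := fun y => a (x + MM m s * y) with hα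
  have hMpos := MM_pos hm s
  have hMpos' := MM_pos hm2' r
  have hMr : (0 : ℝ) < MM m s := by exact_mod_cast hMpos
  set N := MM m (s + r) with hN
  have hNeq : N = MM m s * MM m' r := MM_add s r
  let Λ : ℕ → ℕ → ℂ := fun c j => (∑ i ∈ range (MM m s), ((hs (i + MM m s * j) N / hs 0 N : ℝ) : ℂ) *
      ((starRingEnd ℂ) (ch m s i x) * ch m s i c)) / MM m s
  have hch : ∀ i c, (starRingEnd ℂ) (ch m s i x) * ch m s i c =
      ∏ k ∈ range s, ex (dig m k i * ((dig m k c : ℝ) - dig m k x) / m k) := by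
    intro i c
    unfold ch
    rw [map_prod, ← prod_mul_distrib]
    apply prod_congr rfl
    intro k _
    rw [ex_conj, ← ex_add]
    congr 1
    ring
  have hΛ : ∀ c j, 1 ≤ j → j < MM m' r → ‖Λ c j‖ ≤ WW m s c x := by
    intro c j hj1 hj2
    have h1 := kernel_bound' hm s c x j N hj1 (by rw [hNeq]; exact Nat.mul_le_mul_left _ hj2)
    simp only [Λ]
    rw [norm_div, Complex.norm_natCast, div_le_iff₀ hMr, mul_comm (WW m s c x)]
    simp_rw [hch]
    exact h1
  have hR : ∀ c ∈ range (MM m s), ∀ y, Rop m (s + r) a (c + MM m s * y) =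
      ∑ j ∈ range (MM m' r), (fh m' r α j * Λ c j) * ch m' r j y := by
    intro c hc y
    unfold Rop
    rw [sum_MM_add]
    apply sum_congr rfl
    intro j _
    simp only [Λ]
    rw [mul_div_assoc', mul_sum, sum_div, sum_mul]
    apply sum_congr rfl
    intro i hi
    rw [fh_split hm s r x hx a ha (mem_range.1 hi), ch_split hm s r (mem_range.1 hi)
      (mem_range.1 hc)]
    ring
  have hf0 : fh m' r α 0 = 0 := by
    unfold fh
    have : ∑ c ∈ range (MM m' r), α c * (starRingEnd ℂ) (ch m' r 0 c) = 0 := by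
      rw [← hmean]
      apply sum_congr rfl
      intro y _
      rw [ch_zero, map_one, mul_one]
    rw [this, zero_div]
  have hrow : ∀ c ∈ range (MM m s), ∑ y ∈ range (MM m' r), ‖Rop m (s + r) a (c + MM m s * y)‖ ^ p ≤
      2 * MM m' r * (WW m s c x * A) ^ p := by
    intro c hc
    apply pow_trick _ _ (fun y => norm_nonneg _) _ p (mul_nonneg (WW_nonneg s c x) hA0) hp
      (by linarith)
    simp_rw [hR c hc]
    rw [parseval hm2' r (fun j => fh m' r α j * Λ c j)]
    apply mul_le_mul_of_nonneg_left _ (by positivity)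
    have h1 : ∀ j ∈ range (MM m' r), ‖fh m' r α j * Λ c j‖ ^ 2 ≤
        WW m s c x ^ 2 * ‖fh m' r α j‖ ^ 2 := by
      intro j hj
      rcases Nat.eq_zero_or_pos j with rfl | h0
      · rw [hf0, zero_mul]
        simp
      · rw [norm_mul, mul_pow, mul_comm]
        exact mul_le_mul_of_nonneg_right
          (pow_le_pow_left₀ (norm_nonneg _) (hΛ c j h0 (mem_range.1 hj)) 2) (sq_nonneg _)
    refine (sum_le_sum h1).trans ?_
    rw [← mul_sum, bessel hm2' r α, mul_pow]
    apply mul_le_mul_of_nonneg_left _ (sq_nonneg _)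
    rw [div_le_iff₀ (by exact_mod_cast hMpos')]
    have h2 : ∀ y ∈ range (MM m' r), ‖α y‖ ^ 2 ≤ A ^ 2 := by
      intro y hy
      apply pow_le_pow_left₀ (norm_nonneg _)
      apply hA
      rw [hNeq]
      have := mem_range.1 hy
      nlinarith
    refine (sum_le_sum h2).trans ?_
    rw [sum_const, card_range, nsmul_eq_mul, mul_comm]
  rw [sum_MM_add, sum_comm]
  refine (sum_le_sum hrow).trans ?_
  have h3 : ∀ c ∈ range (MM m s), 2 * (MM m' r : ℝ) * (WW m s c x * A) ^ p =
      2 * MM m' r * A ^ p * WW m s c x ^ p := by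
    intro c _
    rw [Real.mul_rpow (WW_nonneg s c x) hA0]
    ring
  rw [sum_congr rfl h3, ← mul_sum]
  have h4 := sum_WW hm b hb p hp hp1 s x
  calc 2 * (MM m' r : ℝ) * A ^ p * ∑ c ∈ range (MM m s), WW m s c x ^ p
      ≤ 2 * (MM m' r : ℝ) * A ^ p * CC b p := mul_le_mul_of_nonneg_left h4 (by positivity)
    _ = 2 * CC b p * A ^ p * MM m' r := by ring

end atoms

section decomposition

variable {m : ℕ → ℕ}

/-- A parent interval with a child on which the martingale is large. -/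
def bad (m : ℕ → ℕ) (φ : ℕ → ℕ → ℂ) (lam : ℝ) (j u : ℕ) : Prop :=
  ∃ d < m j, lam < ‖φ (j + 1) (u + MM m j * d)‖

/-- The martingale difference. -/
def dd (m : ℕ → ℕ) (φ : ℕ → ℕ → ℂ) (j c : ℕ) : ℂ :=
  φ (j + 1) (c % MM m (j + 1)) - φ j (c % MM m j)

open Classical in
/-- The stopped martingale, truncated at `t`. -/
noncomputable def FF (m : ℕ → ℕ) (φ : ℕ → ℕ → ℂ) (lam : ℝ) (t c : ℕ) : ℂ :=
  ∑ j ∈ range t, if ∀ i ≤ j, ¬ bad m φ lam i (c % MM m i) then dd m φ j c else 0

lemma FF_prop (hm : ∀ k, 2 ≤ m k) (φ : ℕ → ℕ → ℂ) (h0 : φ 0 0 = 0) (lam : ℝ) (hl : 0 ≤ lam)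
    (c t : ℕ) : ‖FF m φ lam t c‖ ≤ lam ∧
      ((∀ i < t, ¬ bad m φ lam i (c % MM m i)) → FF m φ lam t c = φ t (c % MM m t)) := by
  classical
  induction t with
  | zero =>
    constructor
    · simpa [FF] using hl
    · intro _
      simp [FF, MM_zero, Nat.mod_one, h0]
  | succ t ih =>
    have hS : FF m φ lam (t + 1) c = FF m φ lam t c +
        if ∀ i ≤ t, ¬ bad m φ lam i (c % MM m i) then dd m φ t c else 0 := by
      unfold FF
      rw [sum_range_succ]
    by_cases hb : ∀ i ≤ t, ¬ bad m φ lam i (c % MM m i)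
    · have h1 : FF m φ lam (t + 1) c = φ (t + 1) (c % MM m (t + 1)) := by
        rw [hS, if_pos hb, ih.2 fun i hi => hb i hi.le]
        unfold dd
        ring
      refine ⟨?_, fun _ => h1⟩
      rw [h1]
      by_contra hlt
      push Not at hlt
      apply hb t le_rfl
      refine ⟨dig m t c, dig_lt hm t c, ?_⟩
      rw [← mod_succ]
      exact hlt
    · rw [hS, if_neg hb, add_zero]
      refine ⟨ih.1, fun h => ?_⟩
      exact absurd (fun i hi => h i (Nat.lt_succ_of_le hi)) hb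

/-- Martingale property on the first `n` levels. -/
def Mart (m : ℕ → ℕ) (φ : ℕ → ℕ → ℂ) : Prop :=
  ∀ j, ∀ u < MM m j, ∑ d ∈ range (m j), φ (j + 1) (u + MM m j * d) = m j * φ j u

lemma sum_dd (hm : ∀ k, 2 ≤ m k) (φ : ℕ → ℕ → ℂ) (hφ : Mart m φ) {n j : ℕ} (hj : j < n)
    (g : ℕ → ℂ) : ∑ c ∈ range (MM m n), g (c % MM m j) * dd m φ j c = 0 := by
  obtain ⟨r, rfl⟩ := Nat.exists_eq_add_of_le (Nat.succ_le_of_lt hj)
  rw [Nat.succ_eq_add_one, sum_MM_add]
  apply sum_eq_zero
  intro y _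
  have hdvd : MM m j ∣ MM m (j + 1) := MM_dvd (Nat.le_succ j)
  have h1 : ∀ c ∈ range (MM m (j + 1)), g ((c + MM m (j + 1) * y) % MM m j) *
      dd m φ j (c + MM m (j + 1) * y) = g (c % MM m j) * dd m φ j c := by
    intro c _
    have e1 : (c + MM m (j + 1) * y) % MM m j = c % MM m j := by
      obtain ⟨t, ht⟩ := hdvd
      rw [ht, mul_assoc, Nat.add_mul_mod_self_left]
    unfold dd
    rw [e1, Nat.add_mul_mod_self_left]
  rw [sum_congr rfl h1, sum_MM_succ, sum_comm]
  apply sum_eq_zero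
  intro v hv
  have hv' := mem_range.1 hv
  have h2 : ∀ e ∈ range (m j), g ((v + MM m j * e) % MM m j) * dd m φ j (v + MM m j * e) =
      g v * (φ (j + 1) (v + MM m j * e) - φ j v) := by
    intro e he
    have e1 : (v + MM m j * e) % MM m j = v := by
      rw [Nat.add_mul_mod_self_left, Nat.mod_eq_of_lt hv']
    have e2 : (v + MM m j * e) % MM m (j + 1) = v + MM m j * e := by
      apply Nat.mod_eq_of_lt
      rw [MM_succ]
      have := mem_range.1 he
      nlinarith
    unfold dd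
    rw [e1, e2]
  rw [sum_congr rfl h2, ← mul_sum, sum_sub_distrib, hφ j v hv', sum_const, card_range,
    nsmul_eq_mul, sub_self, mul_zero]

/-- First bad interval. -/
def stop (m : ℕ → ℕ) (φ : ℕ → ℕ → ℂ) (lam : ℝ) (s u : ℕ) : Prop :=
  bad m φ lam s u ∧ ∀ i < s, ¬ bad m φ lam i (u % MM m i)

lemma stop_mod {φ : ℕ → ℕ → ℂ} {lam : ℝ} {s c : ℕ} : stop m φ lam s (c % MM m s) ↔
    bad m φ lam s (c % MM m s) ∧ ∀ i < s, ¬ bad m φ lam i (c % MM m i) := by
  unfold stop
  have : ∀ i < s, c % MM m s % MM m i = c % MM m i := fun i hi =>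
    Nat.mod_mod_of_dvd _ (MM_dvd hi.le)
  constructor
  · rintro ⟨h1, h2⟩
    exact ⟨h1, fun i hi => by rw [← this i hi]; exact h2 i hi⟩
  · rintro ⟨h1, h2⟩
    exact ⟨h1, fun i hi => by rw [this i hi]; exact h2 i hi⟩

lemma stop_unique {φ : ℕ → ℕ → ℂ} {lam : ℝ} {s s' c : ℕ} (h : stop m φ lam s (c % MM m s))
    (h' : stop m φ lam s' (c % MM m s')) : s = s' := by
  rw [stop_mod] at h h'
  rcases lt_trichotomy s s' with h1 | h1 | h1
  · exact absurd h.1 (h'.2 s h1)
  · exact h1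
  · exact absurd h'.1 (h.2 s' h1)

lemma exists_stop {φ : ℕ → ℕ → ℂ} {lam : ℝ} {n c : ℕ}
    (h : ∃ i < n, bad m φ lam i (c % MM m i)) : ∃ s < n, stop m φ lam s (c % MM m s) := by
  classical
  let s := Nat.find h
  have hs := Nat.find_spec h
  refine ⟨s, hs.1, stop_mod.2 ⟨hs.2, fun i hi hb => ?_⟩⟩
  exact Nat.find_min h hi ⟨hi.trans hs.1, hb⟩

lemma bad_mono {φ : ℕ → ℕ → ℂ} {lam lam' : ℝ} (h : lam ≤ lam') {j u : ℕ}
    (hb : bad m φ lam' j u) : bad m φ lam j u := by
  obtain ⟨d, hd, h1⟩ := hb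
  exact ⟨d, hd, lt_of_le_of_lt h h1⟩

open Classical in
/-- The atoms. -/
noncomputable def at' (m : ℕ → ℕ) (φ : ℕ → ℕ → ℂ) (lam lam' : ℝ) (n s u c : ℕ) : ℂ :=
  if stop m φ lam s u ∧ c % MM m s = u then FF m φ lam' n c - FF m φ lam n c else 0

lemma sum_atoms (hm : ∀ k, 2 ≤ m k) (φ : ℕ → ℕ → ℂ) (lam lam' : ℝ) (h : lam ≤ lam') (n c : ℕ) :
    FF m φ lam' n c - FF m φ lam n c =
      ∑ s ∈ range n, ∑ u ∈ range (MM m s), at' m φ lam lam' n s u c := by
  classical
  have h1 : ∀ s ∈ range n, ∑ u ∈ range (MM m s), at' m φ lam lam' n s u c =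
      if stop m φ lam s (c % MM m s) then FF m φ lam' n c - FF m φ lam n c else 0 := by
    intro s _
    rw [sum_eq_single_of_mem (c % MM m s) (mem_range.2 (Nat.mod_lt _ (MM_pos hm s)))]
    · unfold at'
      simp
    · intro u _ hne
      unfold at'
      rw [if_neg]
      rintro ⟨-, h2⟩
      exact hne h2.symm
  rw [sum_congr rfl h1]
  by_cases hex : ∃ i < n, bad m φ lam i (c % MM m i)
  · obtain ⟨s, hs, hst⟩ := exists_stop hex
    rw [sum_eq_single_of_mem s (mem_range.2 hs), if_pos hst]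
    intro s' _ hne
    rw [if_neg]
    intro h2
    exact hne (stop_unique h2 hst)
  · push Not at hex
    rw [sum_eq_zero]
    · have h2 : ∀ lam'' : ℝ, lam ≤ lam'' → FF m φ lam'' n c = ∑ j ∈ range n, dd m φ j c := by
        intro lam'' hll
        unfold FF
        apply sum_congr rfl
        intro j hj
        rw [if_pos]
        intro i hi hb
        exact hex i (lt_of_le_of_lt hi (mem_range.1 hj)) (bad_mono hll hb)
      rw [h2 lam' h, h2 lam le_rfl, sub_self]
    · intro s hs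
      rw [if_neg]
      intro h2
      exact hex s (mem_range.1 hs) h2.1

lemma atom_mean (hm : ∀ k, 2 ≤ m k) (φ : ℕ → ℕ → ℂ) (hφ : Mart m φ) (lam lam' : ℝ)
    (h : lam ≤ lam') (n s u : ℕ) : ∑ c ∈ range (MM m n), at' m φ lam lam' n s u c = 0 := by
  classical
  by_cases hst : stop m φ lam s u
  · have h1 : ∀ c, at' m φ lam lam' n s u c = ∑ j ∈ range n,
        (if s ≤ j ∧ (c % MM m j) % MM m s = u ∧
          ∀ i ≤ j, ¬ bad m φ lam' i ((c % MM m j) % MM m i) then (1 : ℂ) else 0) * dd m φ j c := by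
      intro c
      by_cases hc : c % MM m s = u
      · have h2 : at' m φ lam lam' n s u c = FF m φ lam' n c - FF m φ lam n c := by
          unfold at'
          rw [if_pos ⟨hst, hc⟩]
        rw [h2]
        unfold FF
        rw [← sum_sub_distrib]
        apply sum_congr rfl
        intro j _
        have hst' := hst
        rw [← hc, stop_mod] at hst'
        rcases lt_or_ge j s with hjs | hjs
        · rw [if_pos, if_pos, if_neg]
          · simp
          · rintro ⟨h3, -⟩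
            omega
          · intro i hi
            exact hst'.2 i (lt_of_le_of_lt hi hjs)
          · intro i hi hb
            exact hst'.2 i (lt_of_le_of_lt hi hjs) (bad_mono h hb)
        · have h3 : ¬ ∀ i ≤ j, ¬ bad m φ lam i (c % MM m i) := fun h4 => h4 s hjs hst'.1
          rw [if_neg h3, sub_zero]
          have h4 : (s ≤ j ∧ c % MM m j % MM m s = u ∧
              ∀ i ≤ j, ¬ bad m φ lam' i (c % MM m j % MM m i)) ↔
              ∀ i ≤ j, ¬ bad m φ lam' i (c % MM m i) := by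
            constructor
            · rintro ⟨-, -, h5⟩ i hi
              have := h5 i hi
              rwa [Nat.mod_mod_of_dvd _ (MM_dvd hi)] at this
            · intro h5
              refine ⟨hjs, ?_, fun i hi => ?_⟩
              · rw [Nat.mod_mod_of_dvd _ (MM_dvd hjs)]
                exact hc
              · rw [Nat.mod_mod_of_dvd _ (MM_dvd hi)]
                exact h5 i hi
          by_cases h5 : ∀ i ≤ j, ¬ bad m φ lam' i (c % MM m i)
          · rw [if_pos h5, if_pos (h4.2 h5), one_mul]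
          · rw [if_neg h5, if_neg (fun h6 => h5 (h4.1 h6)), zero_mul]
      · have h2 : at' m φ lam lam' n s u c = 0 := by
          unfold at'
          rw [if_neg]
          rintro ⟨-, h3⟩
          exact hc h3
        rw [h2]
        symm
        apply sum_eq_zero
        intro j _
        rw [if_neg, zero_mul]
        rintro ⟨h3, h4, -⟩
        rw [Nat.mod_mod_of_dvd _ (MM_dvd h3)] at h4
        exact hc h4
    simp_rw [h1]
    rw [sum_comm]
    apply sum_eq_zero
    intro j hj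
    exact sum_dd hm φ hφ (mem_range.1 hj) (fun v => if s ≤ j ∧ v % MM m s = u ∧
          ∀ i ≤ j, ¬ bad m φ lam' i (v % MM m i) then (1 : ℂ) else 0)
  · apply sum_eq_zero
    intro c _
    unfold at'
    rw [if_neg]
    rintro ⟨h1, -⟩
    exact hst h1

lemma norm_sum_rpow {ι : Type*} (s : Finset ι) (z : ι → ℂ) (p : ℝ) (hp : 0 < p) (hp1 : p ≤ 1) :
    ‖∑ i ∈ s, z i‖ ^ p ≤ ∑ i ∈ s, ‖z i‖ ^ p := by
  classical
  induction s using Finset.induction_on with
  | empty => simp [Real.zero_rpow hp.ne']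
  | insert a s ha ih =>
    rw [sum_insert ha, sum_insert ha]
    calc ‖z a + ∑ i ∈ s, z i‖ ^ p ≤ (‖z a‖ + ‖∑ i ∈ s, z i‖) ^ p :=
          Real.rpow_le_rpow (norm_nonneg _) (norm_add_le _ _) hp.le
      _ ≤ ‖z a‖ ^ p + ‖∑ i ∈ s, z i‖ ^ p :=
          Real.rpow_add_le_add_rpow (norm_nonneg _) (norm_nonneg _) hp.le hp1
      _ ≤ ‖z a‖ ^ p + ∑ i ∈ s, ‖z i‖ ^ p := by linarith

lemma atom_est (hm : ∀ k, 2 ≤ m k) (b : ℕ) (hb : ∀ k, m k ≤ b) (p : ℝ) (hp : 0 < p)
    (hp1 : p ≤ 1) (φ : ℕ → ℕ → ℂ) (h0 : φ 0 0 = 0) (hφ : Mart m φ) (lam lam' : ℝ)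
    (hl : 0 ≤ lam) (h : lam ≤ lam') (n s u : ℕ) (hs : s < n) (hu : u < MM m s)
    (hst : stop m φ lam s u) :
    ∑ c ∈ range (MM m n), ‖Rop m n (at' m φ lam lam' n s u) c‖ ^ p ≤
      2 * CC b p * (2 * lam') ^ p * MM (fun k => m (s + k)) (n - s) := by
  classical
  obtain ⟨r, rfl⟩ := Nat.exists_eq_add_of_le hs.le
  have hr : s + r - s = r := by omega
  rw [hr]
  apply atom_bound hm b hb p hp hp1 s r u hu
  · intro c _ hne
    unfold at'
    rw [if_neg]
    rintro ⟨-, h1⟩
    exact hne h1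
  · have h1 := atom_mean hm φ hφ lam lam' h (s + r) s u
    rw [sum_MM_add] at h1
    rw [← h1]
    apply sum_congr rfl
    intro y _
    symm
    apply sum_eq_single_of_mem u (mem_range.2 hu)
    intro c hc hne
    unfold at'
    rw [if_neg]
    rintro ⟨-, h2⟩
    rw [Nat.add_mul_mod_self_left, Nat.mod_eq_of_lt (mem_range.1 hc)] at h2
    exact hne h2
  · linarith
  · intro c _
    unfold at'
    split_ifs
    · have h1 := (FF_prop hm φ h0 lam hl c (s + r)).1
      have h2 := (FF_prop hm φ h0 lam' (hl.trans h) c (s + r)).1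
      have h3 := norm_sub_le (FF m φ lam' (s + r) c) (FF m φ lam (s + r) c)
      linarith
    · rw [norm_zero]
      linarith

/-- The maximal function. -/
noncomputable def Mx (m : ℕ → ℕ) (φ : ℕ → ℕ → ℂ) (n c : ℕ) : ℝ :=
  (range (n + 1)).sup' nonempty_range_add_one fun j => ‖φ j (c % MM m j)‖

lemma le_Mx (φ : ℕ → ℕ → ℂ) {n j : ℕ} (hj : j ≤ n) (c : ℕ) : ‖φ j (c % MM m j)‖ ≤ Mx m φ n c :=
  le_sup' (fun j => ‖φ j (c % MM m j)‖) (mem_range.2 (Nat.lt_succ_of_le hj))

lemma Mx_nonneg (φ : ℕ → ℕ → ℂ) (n c : ℕ) : 0 ≤ Mx m φ n c :=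
  (norm_nonneg _).trans (le_Mx φ (Nat.zero_le n) c)

lemma card_coset (hm : ∀ k, 2 ≤ m k) (s r w : ℕ) (hw : w < MM m s) :
    ((range (MM m (s + r))).filter fun c => c % MM m s = w).card =
      MM (fun k => m (s + k)) r := by
  classical
  rw [card_filter, sum_MM_add]
  have h1 : ∀ y ∈ range (MM (fun k => m (s + k)) r), ∑ c ∈ range (MM m s),
      (if (c + MM m s * y) % MM m s = w then 1 else 0) = 1 := by
    intro y _
    rw [sum_eq_single_of_mem w (mem_range.2 hw)]
    · rw [if_pos]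
      rw [Nat.add_mul_mod_self_left, Nat.mod_eq_of_lt hw]
    · intro c hc hne
      rw [if_neg]
      rw [Nat.add_mul_mod_self_left, Nat.mod_eq_of_lt (mem_range.1 hc)]
      exact hne
  rw [sum_congr rfl h1, sum_const, card_range, smul_eq_mul, mul_one]

open Classical in
lemma count_stop (hm : ∀ k, 2 ≤ m k) (b : ℕ) (hb : ∀ k, m k ≤ b) (φ : ℕ → ℕ → ℂ) (lam : ℝ)
    (n : ℕ) :
    ∑ s ∈ range n, ∑ u ∈ range (MM m s),
      (if stop m φ lam s u then MM (fun k => m (s + k)) (n - s) else 0) ≤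
      b * ((range (MM m n)).filter fun c => lam < Mx m φ n c).card := by
  have h1 : ∀ s ∈ range n, ∀ u ∈ range (MM m s),
      (if stop m φ lam s u then MM (fun k => m (s + k)) (n - s) else 0) ≤
      b * ∑ c ∈ (range (MM m n)).filter (fun c => lam < Mx m φ n c),
        (if stop m φ lam s u ∧ c % MM m s = u then 1 else 0) := by
    intro s hs u hu
    have hs' := mem_range.1 hs
    have hu' := mem_range.1 hu
    split_ifs with hst
    · obtain ⟨d, hd, hlt⟩ := hst.1
      obtain ⟨r, rfl⟩ := Nat.exists_eq_add_of_le (Nat.succ_le_of_lt hs')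
      have e1 : s.succ + r - s = 1 + r := by omega
      have e2 : MM (fun k => m (s + k)) (1 + r) = m s * MM (fun k => m (s + 1 + k)) r := by
        rw [MM_add]
        simp only [MM_succ, MM_zero, mul_one, add_zero]
        congr 2
        funext k
        rw [add_assoc]
      rw [e1, e2]
      have hw : u + MM m s * d < MM m (s + 1) := by
        rw [MM_succ]
        nlinarith
      have h2 := card_coset hm (s + 1) r (u + MM m s * d) hw
      rw [← h2]
      apply Nat.mul_le_mul (hb s)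
      rw [card_filter]
      rw [← sum_filter_add_sum_filter_not (range (MM m (s + 1 + r)))
        (fun c => lam < Mx m φ (s.succ + r) c)]
      have h3 : ∑ c ∈ range (MM m (s + 1 + r)) with ¬lam < Mx m φ (s.succ + r) c,
          (if c % MM m (s + 1) = u + MM m s * d then 1 else 0) = 0 := by
        apply sum_eq_zero
        intro c hc
        rw [if_neg]
        intro h4
        apply (mem_filter.1 hc).2
        refine lt_of_lt_of_le hlt ?_
        rw [← h4]
        exact le_Mx φ (by omega) c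
      rw [h3, add_zero]
      apply sum_le_sum
      intro c _
      by_cases h4 : c % MM m (s + 1) = u + MM m s * d
      · have h5 : c % MM m s = u := by
          rw [← Nat.mod_mod_of_dvd c (MM_dvd (Nat.le_succ s)), h4, Nat.add_mul_mod_self_left,
            Nat.mod_eq_of_lt hu']
        rw [if_pos h4, if_pos ⟨hst, h5⟩]
      · rw [if_neg h4]
        exact Nat.zero_le _
    · exact Nat.zero_le _
  refine (sum_le_sum fun s hs => sum_le_sum (h1 s hs)).trans ?_
  simp_rw [← mul_sum]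
  apply Nat.mul_le_mul_left
  have h6 : ∑ s ∈ range n, ∑ u ∈ range (MM m s), ∑ c ∈ (range (MM m n)).filter
      (fun c => lam < Mx m φ n c), (if stop m φ lam s u ∧ c % MM m s = u then 1 else 0) =
      ∑ c ∈ (range (MM m n)).filter (fun c => lam < Mx m φ n c), ∑ s ∈ range n,
        ∑ u ∈ range (MM m s), (if stop m φ lam s u ∧ c % MM m s = u then 1 else 0) :=
    (sum_congr rfl fun s _ => sum_comm).trans sum_comm
  rw [h6, card_eq_sum_ones]
  apply sum_le_sum
  intro c _
  have h7 : ∀ s ∈ range n, ∑ u ∈ range (MM m s),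
      (if stop m φ lam s u ∧ c % MM m s = u then 1 else 0) =
      if stop m φ lam s (c % MM m s) then 1 else 0 := by
    intro s _
    rw [sum_eq_single_of_mem (c % MM m s) (mem_range.2 (Nat.mod_lt _ (MM_pos hm s)))]
    · simp
    · intro u _ hne
      rw [if_neg]
      rintro ⟨-, h2⟩
      exact hne h2.symm
  rw [sum_congr rfl h7, ← card_filter]
  apply card_le_one.2
  intro s hs s' hs'
  exact stop_unique (mem_filter.1 hs).2 (mem_filter.1 hs').2

end decomposition

section main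

variable {m : ℕ → ℕ}

lemma Rop_l2 (hm : ∀ k, 2 ≤ m k) (n : ℕ) (a : ℕ → ℂ) :
    ∑ c ∈ range (MM m n), ‖Rop m n a c‖ ^ 2 ≤ ∑ c ∈ range (MM m n), ‖a c‖ ^ 2 := by
  have hpos : (0 : ℝ) < MM m n := by exact_mod_cast MM_pos hm n
  unfold Rop
  rw [parseval hm n (fun i => ((hs i (MM m n) / hs 0 (MM m n) : ℝ) : ℂ) * fh m n a i)]
  have h1 : ∀ i ∈ range (MM m n), ‖((hs i (MM m n) / hs 0 (MM m n) : ℝ) : ℂ) * fh m n a i‖ ^ 2 ≤
      ‖fh m n a i‖ ^ 2 := by
    intro i _
    apply pow_le_pow_left₀ (norm_nonneg _)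
    rw [norm_mul]
    have h2 : ‖((hs i (MM m n) / hs 0 (MM m n) : ℝ) : ℂ)‖ ≤ 1 := by
      have h3 : 0 ≤ hs i (MM m n) := sum_nonneg fun k _ => by positivity
      have h4 : hs i (MM m n) ≤ hs 0 (MM m n) := by
        unfold hs
        apply sum_le_sum_of_subset_of_nonneg
        · exact Ioc_subset_Ioc_left (Nat.zero_le i)
        · intro k _ _; positivity
      rw [Complex.norm_real, Real.norm_eq_abs, abs_of_nonneg (div_nonneg h3 (h3.trans h4))]
      exact div_le_one_of_le₀ h4 (h3.trans h4)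
    calc _ ≤ 1 * ‖fh m n a i‖ := mul_le_mul_of_nonneg_right h2 (norm_nonneg _)
      _ = _ := one_mul _
  calc _ ≤ (MM m n : ℝ) * ∑ i ∈ range (MM m n), ‖fh m n a i‖ ^ 2 :=
        mul_le_mul_of_nonneg_left (sum_le_sum h1) hpos.le
    _ = _ := by rw [bessel hm n a]; field_simp

lemma layer_bound (hm : ∀ k, 2 ≤ m k) (b : ℕ) (hb : ∀ k, m k ≤ b) (p : ℝ) (hp : 0 < p)
    (hp1 : p ≤ 1) (φ : ℕ → ℕ → ℂ) (h0 : φ 0 0 = 0) (hφ : Mart m φ) (lam : ℝ)
    (hl : 0 ≤ lam) (n : ℕ) :
    ∑ c ∈ range (MM m n), ‖Rop m n (fun c => FF m φ (2 * lam) n c - FF m φ lam n c) c‖ ^ p ≤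
      2 * CC b p * b * (4 * lam) ^ p *
        ∑ c ∈ range (MM m n), (if lam < Mx m φ n c then 1 else 0 : ℝ) := by
  classical
  have hCC : 0 ≤ CC b p := (Real.exp_pos _).le
  have h1 : ∀ c, Rop m n (fun c => FF m φ (2 * lam) n c - FF m φ lam n c) c =
      ∑ s ∈ range n, ∑ u ∈ range (MM m s), Rop m n (at' m φ lam (2 * lam) n s u) c := by
    intro c
    have h2 : (fun c => FF m φ (2 * lam) n c - FF m φ lam n c) = fun c =>
        ∑ s ∈ range n, ∑ u ∈ range (MM m s), at' m φ lam (2 * lam) n s u c := by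
      funext c
      exact sum_atoms hm φ lam (2 * lam) (by linarith) n c
    rw [h2, Rop_sum n (range n) (fun s c => ∑ u ∈ range (MM m s), at' m φ lam (2 * lam) n s u c)]
    apply sum_congr rfl
    intro s _
    exact Rop_sum n (range (MM m s)) (fun u => at' m φ lam (2 * lam) n s u) c
  have h2 : ∀ c, ‖Rop m n (fun c => FF m φ (2 * lam) n c - FF m φ lam n c) c‖ ^ p ≤
      ∑ s ∈ range n, ∑ u ∈ range (MM m s), ‖Rop m n (at' m φ lam (2 * lam) n s u) c‖ ^ p := by
    intro c
    rw [h1]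
    refine (norm_sum_rpow _ _ p hp hp1).trans ?_
    exact sum_le_sum fun s _ => norm_sum_rpow _ _ p hp hp1
  refine (sum_le_sum fun c _ => h2 c).trans ?_
  have h3 : ∑ c ∈ range (MM m n), ∑ s ∈ range n, ∑ u ∈ range (MM m s),
      ‖Rop m n (at' m φ lam (2 * lam) n s u) c‖ ^ p =
      ∑ s ∈ range n, ∑ u ∈ range (MM m s), ∑ c ∈ range (MM m n),
        ‖Rop m n (at' m φ lam (2 * lam) n s u) c‖ ^ p :=
    sum_comm.trans (sum_congr rfl fun s _ => sum_comm)
  rw [h3]
  have h4 : ∀ s ∈ range n, ∀ u ∈ range (MM m s), ∑ c ∈ range (MM m n),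
      ‖Rop m n (at' m φ lam (2 * lam) n s u) c‖ ^ p ≤ 2 * CC b p * (4 * lam) ^ p *
        ((if stop m φ lam s u then MM (fun k => m (s + k)) (n - s) else 0 : ℕ) : ℝ) := by
    intro s hs u hu
    by_cases hst : stop m φ lam s u
    · have := atom_est hm b hb p hp hp1 φ h0 hφ lam (2 * lam) hl (by linarith) n s u
        (mem_range.1 hs) (mem_range.1 hu) hst
      rw [if_pos hst]
      refine this.trans (le_of_eq ?_)
      congr 3
      ring
    · rw [if_neg hst]
      have h5 : at' m φ lam (2 * lam) n s u = fun _ => 0 := by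
        funext c
        unfold at'
        rw [if_neg]
        rintro ⟨h6, -⟩
        exact hst h6
      rw [h5]
      simp [Rop_zero, Real.zero_rpow hp.ne']
  refine (sum_le_sum fun s hs => sum_le_sum (h4 s hs)).trans ?_
  simp_rw [← mul_sum]
  have h5 := count_stop hm b hb φ lam n
  have h6 : (∑ s ∈ range n, ∑ u ∈ range (MM m s),
      ((if stop m φ lam s u then MM (fun k => m (s + k)) (n - s) else 0 : ℕ) : ℝ)) ≤
      b * ∑ c ∈ range (MM m n), (if lam < Mx m φ n c then 1 else 0 : ℝ) := by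
    rw [card_filter] at h5
    exact_mod_cast h5
  calc 2 * CC b p * (4 * lam) ^ p * _ ≤ 2 * CC b p * (4 * lam) ^ p *
        (b * ∑ c ∈ range (MM m n), (if lam < Mx m φ n c then 1 else 0 : ℝ)) :=
        mul_le_mul_of_nonneg_left h6 (by positivity)
    _ = _ := by ring

lemma geom_layers (p : ℝ) (hp : 0 < p) (θ x : ℝ) (hθ : 0 < θ) (hx : 0 ≤ x) (K : ℕ) :
    ∑ k ∈ range K, (θ * 2 ^ k) ^ p * (if θ * 2 ^ k < x then 1 else 0 : ℝ) ≤
      x ^ p / (1 - (1 / 2) ^ p) := by
  set ρ : ℝ := (1 / 2 : ℝ) ^ p with hρ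
  have hρ0 : 0 < ρ := by positivity
  have hρ1 : ρ < 1 := Real.rpow_lt_one (by norm_num) (by norm_num) hp
  have key : ∀ k : ℕ, (θ * 2 ^ k) ^ p = ρ * (θ * 2 ^ (k + 1)) ^ p := by
    intro k
    rw [hρ, ← Real.mul_rpow (by norm_num) (by positivity)]
    congr 1
    rw [pow_succ]
    ring
  -- the geometric sum up to `k`
  have hg : ∀ K : ℕ, ∑ k ∈ range (K + 1), (θ * 2 ^ k) ^ p ≤ (θ * 2 ^ K) ^ p / (1 - ρ) := by
    intro K
    induction K with
    | zero =>
      rw [sum_range_one, le_div_iff₀ (by linarith)]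
      have : 0 ≤ (θ * 2 ^ 0) ^ p := by positivity
      nlinarith
    | succ K ih =>
      rw [sum_range_succ]
      have h1 := key K
      have h2 : 0 ≤ (θ * 2 ^ (K + 1)) ^ p := by positivity
      have h3 : (θ * 2 ^ K) ^ p / (1 - ρ) + (θ * 2 ^ (K + 1)) ^ p =
          (θ * 2 ^ (K + 1)) ^ p / (1 - ρ) := by
        rw [h1]
        have : 1 - ρ ≠ 0 := by linarith
        field_simp
        ring
      linarith
  have hnn : 0 ≤ x ^ p / (1 - ρ) := div_nonneg (Real.rpow_nonneg hx _) (by linarith)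
  induction K with
  | zero => simpa using hnn
  | succ K ih =>
    by_cases h : θ * 2 ^ K < x
    · calc ∑ k ∈ range (K + 1), (θ * 2 ^ k) ^ p * (if θ * 2 ^ k < x then 1 else 0 : ℝ)
          ≤ ∑ k ∈ range (K + 1), (θ * 2 ^ k) ^ p := by
            apply sum_le_sum
            intro k _
            have : 0 ≤ (θ * 2 ^ k) ^ p := by positivity
            split_ifs <;> linarith
        _ ≤ (θ * 2 ^ K) ^ p / (1 - ρ) := hg K
        _ ≤ x ^ p / (1 - ρ) := by
            apply div_le_div_of_nonneg_right _ (by linarith)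
            exact Real.rpow_le_rpow (by positivity) h.le hp.le
    · rw [sum_range_succ, if_neg h, mul_zero, add_zero]
      exact ih

/-- The final constant for centred martingales. -/
noncomputable def C1 (b : ℕ) (p : ℝ) : ℝ := 2 * CC b p * b * 4 ^ p / (1 - (1 / 2) ^ p)

lemma centred_theta (hm : ∀ k, 2 ≤ m k) (b : ℕ) (hb : ∀ k, m k ≤ b) (p : ℝ) (hp : 0 < p)
    (hp1 : p ≤ 1) (φ : ℕ → ℕ → ℂ) (h0 : φ 0 0 = 0) (hφ : Mart m φ) (n : ℕ) (θ : ℝ) (hθ : 0 < θ) :
    ∑ c ∈ range (MM m n), ‖Rop m n (φ n) c‖ ^ p ≤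
      2 * MM m n * θ ^ p + C1 b p * ∑ c ∈ range (MM m n), Mx m φ n c ^ p := by
  classical
  -- choose K large
  obtain ⟨B, hB⟩ : ∃ B : ℝ, ∀ c ∈ range (MM m n), Mx m φ n c ≤ B := by
    refine ⟨∑ c ∈ range (MM m n), Mx m φ n c, fun c hc => ?_⟩
    exact single_le_sum (f := fun c => Mx m φ n c) (fun c _ => Mx_nonneg φ n c) hc
  obtain ⟨K, hK⟩ : ∃ K : ℕ, B ≤ θ * 2 ^ K := by
    obtain ⟨K, hK⟩ := pow_unbounded_of_one_lt (B / θ) (by norm_num : (1 : ℝ) < 2)
    refine ⟨K, ?_⟩
    rw [div_lt_iff₀ hθ] at hK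
    linarith
  have hφn : ∀ c < MM m n, φ n c = FF m φ (θ * 2 ^ K) n c := by
    intro c hc
    rw [(FF_prop hm φ h0 (θ * 2 ^ K) (by positivity) c n).2, Nat.mod_eq_of_lt hc]
    rintro i hi ⟨d, hd, hlt⟩
    -- the child interval inside `[0, M_n)`
    set w := c % MM m i + MM m i * d with hw
    have hi1 : c % MM m i < MM m i := Nat.mod_lt _ (MM_pos hm i)
    have hw1 : w < MM m (i + 1) := by
      rw [hw, MM_succ]
      nlinarith
    have hw2 : w < MM m n := lt_of_lt_of_le hw1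
      (Nat.le_of_dvd (MM_pos hm n) (MM_dvd hi))
    have h1 := le_Mx (m := m) φ (Nat.succ_le_of_lt hi) w
    rw [Nat.succ_eq_add_one, Nat.mod_eq_of_lt hw1] at h1
    have h2 := hB w (mem_range.2 hw2)
    linarith
  have htel : ∀ c, FF m φ (θ * 2 ^ K) n c = FF m φ θ n c + ∑ k ∈ range K,
      (FF m φ (2 * (θ * 2 ^ k)) n c - FF m φ (θ * 2 ^ k) n c) := by
    intro c
    have h1 : ∀ k, FF m φ (2 * (θ * 2 ^ k)) n c = FF m φ (θ * 2 ^ (k + 1)) n c := by
      intro k
      congr 1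
      rw [pow_succ]
      ring
    simp_rw [h1]
    rw [sum_range_sub (fun k => FF m φ (θ * 2 ^ k) n c) K]
    simp
  have hR : ∀ c, Rop m n (φ n) c = Rop m n (FF m φ θ n) c + ∑ k ∈ range K,
      Rop m n (fun c => FF m φ (2 * (θ * 2 ^ k)) n c - FF m φ (θ * 2 ^ k) n c) c := by
    intro c
    rw [← Rop_sum, ← Rop_add]
    apply Rop_congr
    intro c hc
    rw [hφn c hc, htel c]
  have hbound : ∀ c, ‖Rop m n (φ n) c‖ ^ p ≤ ‖Rop m n (FF m φ θ n) c‖ ^ p + ∑ k ∈ range K,
      ‖Rop m n (fun c => FF m φ (2 * (θ * 2 ^ k)) n c - FF m φ (θ * 2 ^ k) n c) c‖ ^ p := by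
    intro c
    rw [hR]
    calc _ ≤ (‖Rop m n (FF m φ θ n) c‖ + ‖∑ k ∈ range K,
          Rop m n (fun c => FF m φ (2 * (θ * 2 ^ k)) n c - FF m φ (θ * 2 ^ k) n c) c‖) ^ p :=
          Real.rpow_le_rpow (norm_nonneg _) (norm_add_le _ _) hp.le
      _ ≤ ‖Rop m n (FF m φ θ n) c‖ ^ p + ‖∑ k ∈ range K,
          Rop m n (fun c => FF m φ (2 * (θ * 2 ^ k)) n c - FF m φ (θ * 2 ^ k) n c) c‖ ^ p :=
          Real.rpow_add_le_add_rpow (norm_nonneg _) (norm_nonneg _) hp.le hp1
      _ ≤ _ := by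
          gcongr
          exact norm_sum_rpow _ _ p hp hp1
  refine (sum_le_sum fun c _ => hbound c).trans ?_
  rw [sum_add_distrib, sum_comm]
  apply add_le_add
  · apply pow_trick _ _ (fun c => norm_nonneg _) θ p hθ.le hp (by linarith)
    refine (Rop_l2 hm n _).trans ?_
    have h1 : ∀ c ∈ range (MM m n), ‖FF m φ θ n c‖ ^ 2 ≤ θ ^ 2 := fun c _ =>
      pow_le_pow_left₀ (norm_nonneg _) (FF_prop hm φ h0 θ hθ.le c n).1 2
    refine (sum_le_sum h1).trans ?_
    rw [sum_const, card_range, nsmul_eq_mul]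
  · have h1 : ∀ k ∈ range K, ∑ c ∈ range (MM m n),
        ‖Rop m n (fun c => FF m φ (2 * (θ * 2 ^ k)) n c - FF m φ (θ * 2 ^ k) n c) c‖ ^ p ≤
        2 * CC b p * b * 4 ^ p * ∑ c ∈ range (MM m n),
          (θ * 2 ^ k) ^ p * (if θ * 2 ^ k < Mx m φ n c then 1 else 0 : ℝ) := by
      intro k _
      refine (layer_bound hm b hb p hp hp1 φ h0 hφ (θ * 2 ^ k) (by positivity) n).trans
        (le_of_eq ?_)
      rw [Real.mul_rpow (by norm_num) (by positivity), ← mul_sum]
      ring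
    refine (sum_le_sum h1).trans ?_
    rw [← mul_sum, sum_comm]
    have hCC : 0 ≤ CC b p := (Real.exp_pos _).le
    calc _ ≤ 2 * CC b p * b * 4 ^ p * ∑ c ∈ range (MM m n),
          (Mx m φ n c ^ p / (1 - (1 / 2) ^ p)) :=
          mul_le_mul_of_nonneg_left (sum_le_sum fun c _ =>
            geom_layers p hp θ _ hθ (Mx_nonneg φ n c) K) (by positivity)
      _ = _ := by
          unfold C1
          rw [← sum_div]
          ring

lemma centred (hm : ∀ k, 2 ≤ m k) (b : ℕ) (hb : ∀ k, m k ≤ b) (p : ℝ) (hp : 0 < p)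
    (hp1 : p ≤ 1) (φ : ℕ → ℕ → ℂ) (h0 : φ 0 0 = 0) (hφ : Mart m φ) (n : ℕ) :
    ∑ c ∈ range (MM m n), ‖Rop m n (φ n) c‖ ^ p ≤
      C1 b p * ∑ c ∈ range (MM m n), Mx m φ n c ^ p := by
  have h1 : Filter.Tendsto (fun θ : ℝ => 2 * (MM m n : ℝ) * θ ^ p +
      C1 b p * ∑ c ∈ range (MM m n), Mx m φ n c ^ p) (nhdsWithin 0 (Set.Ioi 0))
      (nhds (2 * (MM m n : ℝ) * (0 : ℝ) ^ p + C1 b p * ∑ c ∈ range (MM m n), Mx m φ n c ^ p)) := by
    apply Filter.Tendsto.mono_left _ nhdsWithin_le_nhds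
    apply Filter.Tendsto.add_const
    apply Filter.Tendsto.const_mul
    exact (Real.continuousAt_rpow_const 0 p (Or.inr hp.le)).tendsto
  rw [Real.zero_rpow hp.ne', mul_zero, zero_add] at h1
  refine ge_of_tendsto h1 ?_
  filter_upwards [self_mem_nhdsWithin] with θ hθ
  exact centred_theta hm b hb p hp hp1 φ h0 hφ n θ hθ

/-- The finite theorem. -/
theorem finite_main (hm : ∀ k, 2 ≤ m k) (b : ℕ) (hb : ∀ k, m k ≤ b) (p : ℝ) (hp : 0 < p)
    (hp1 : p ≤ 1) (φ : ℕ → ℕ → ℂ) (hφ : Mart m φ) (n : ℕ) :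
    ∑ c ∈ range (MM m n), ‖Rop m n (φ n) c‖ ^ p ≤
      (C1 b p * 2 ^ p + 1) * ∑ c ∈ range (MM m n), Mx m φ n c ^ p := by
  set z : ℂ := φ 0 0 with hz
  let φ' : ℕ → ℕ → ℂ := fun j c => φ j c - z
  have hφ' : Mart m φ' := by
    intro j u hu
    simp only [φ']
    rw [sum_sub_distrib, hφ j u hu, sum_const, card_range, nsmul_eq_mul]
    ring
  have h1 := centred hm b hb p hp hp1 φ' (by simp [φ', hz]) hφ' n
  have hpos : (0 : ℝ) < MM m n := by exact_mod_cast MM_pos hm n
  have hzM : ∀ c, ‖z‖ ≤ Mx m φ n c := by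
    intro c
    have := le_Mx (m := m) φ (Nat.zero_le n) c
    rw [MM_zero, Nat.mod_one] at this
    exact this
  have hMx : ∀ c, Mx m φ' n c ≤ 2 * Mx m φ n c := by
    intro c
    apply sup'_le
    intro j hj
    have h2 := le_Mx (m := m) φ (Nat.le_of_lt_succ (mem_range.1 hj)) c
    have h3 := norm_sub_le (φ j (c % MM m j)) z
    have h4 := hzM c
    simp only [φ']
    linarith
  have hconst : ∀ c < MM m n, Rop m n (fun _ => z) c = z := by
    intro c hc
    unfold Rop
    have h2 : ∀ i ∈ range (MM m n), fh m n (fun _ => z) i = if i = 0 then z else 0 := by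
      intro i hi
      unfold fh
      have h3 := ch_orth hm n 0 i (MM_pos hm n) (mem_range.1 hi)
      simp_rw [ch_zero, one_mul] at h3
      rw [← mul_sum, h3]
      have hne : (MM m n : ℂ) ≠ 0 := by exact_mod_cast hpos.ne'
      by_cases hi0 : i = 0
      · rw [if_pos hi0.symm, if_pos hi0]
        field_simp
      · rw [if_neg (Ne.symm hi0), if_neg hi0]
        simp
    rw [sum_eq_single_of_mem 0 (mem_range.2 (MM_pos hm n))]
    · rw [h2 0 (mem_range.2 (MM_pos hm n)), if_pos rfl, ch_zero, mul_one]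
      have h3 : hs 0 (MM m n) ≠ 0 := by
        have h4 : 0 < hs 0 (MM m n) := by
          unfold hs
          apply sum_pos
          · intro k hk
            have := (mem_Ioc.1 hk).1
            positivity
          · exact ⟨1, mem_Ioc.2 ⟨one_pos, MM_pos hm n⟩⟩
        exact h4.ne'
      rw [div_self h3]
      simp
    · intro i hi hne
      rw [h2 i hi, if_neg hne]
      simp
  have hsplit : ∀ c ∈ range (MM m n), ‖Rop m n (φ n) c‖ ^ p ≤
      ‖Rop m n (φ' n) c‖ ^ p + Mx m φ n c ^ p := by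
    intro c hc
    have h2 : Rop m n (φ n) c = Rop m n (φ' n) c + z := by
      rw [← hconst c (mem_range.1 hc), ← Rop_add]
      apply Rop_congr
      intro c _
      simp only [φ']
      ring
    rw [h2]
    calc ‖Rop m n (φ' n) c + z‖ ^ p ≤ (‖Rop m n (φ' n) c‖ + ‖z‖) ^ p :=
          Real.rpow_le_rpow (norm_nonneg _) (norm_add_le _ _) hp.le
      _ ≤ ‖Rop m n (φ' n) c‖ ^ p + ‖z‖ ^ p :=
          Real.rpow_add_le_add_rpow (norm_nonneg _) (norm_nonneg _) hp.le hp1
      _ ≤ _ := by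
          gcongr
          exact hzM c
  refine (sum_le_sum hsplit).trans ?_
  rw [sum_add_distrib, add_mul, one_mul]
  gcongr
  refine h1.trans ?_
  have hC1 : 0 ≤ C1 b p := by
    unfold C1
    have hCC : 0 ≤ CC b p := (Real.exp_pos _).le
    have : (1 / 2 : ℝ) ^ p < 1 := Real.rpow_lt_one (by norm_num) (by norm_num) hp
    have h5 : 0 < 1 - (1 / 2 : ℝ) ^ p := by linarith
    positivity
  rw [mul_assoc]
  apply mul_le_mul_of_nonneg_left _ hC1
  rw [mul_sum]
  apply sum_le_sum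
  intro c _
  rw [← Real.mul_rpow (by norm_num) (Mx_nonneg φ n c)]
  exact Real.rpow_le_rpow (Mx_nonneg φ' n c) (hMx c) hp.le

end main

section infinite

open MeasureTheory Filter

variable {m : ℕ → ℕ} [∀ k, NeZero (m k)]

/-- The Vilenkin group `G_m`. -/
abbrev Gm (m : ℕ → ℕ) : Type := (k : ℕ) → Fin (m k)

/-- The product of the uniform probability measures. -/
noncomputable def mu (m : ℕ → ℕ) [∀ k, NeZero (m k)] : Measure (Gm m) :=
  Measure.infinitePi fun k => (PMF.uniformOfFintype (Fin (m k))).toMeasure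

/-- The Vilenkin functions `ψ_n = ∏ r_k ^ {n_k}`, `r_k(x) = exp(2 π i x_k / m_k)`. (The digits
`n_k` vanish for `k > n`.) -/
noncomputable def psi (m : ℕ → ℕ) (n : ℕ) (x : Gm m) : ℂ :=
  ∏ k ∈ range (n + 1), Complex.exp (2 * Real.pi * Complex.I * ((x k : ℕ) : ℝ) / m k) ^ dig m k n

/-- `f = (f^(n))` is a martingale for the filtration `F_n` generated by the first `n`
coordinates. -/
structure IsMart (m : ℕ → ℕ) [∀ k, NeZero (m k)] (f : ℕ → Gm m → ℂ) : Prop where
  adapted : ∀ n x y, (∀ k < n, x k = y k) → f n x = f n y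
  average : ∀ n x, f n x = (∑ d : Fin (m n), f (n + 1) (Function.update x n d)) / m n

/-- The Fourier coefficients of a martingale. -/
noncomputable def coef (f : ℕ → Gm m → ℂ) (i : ℕ) : ℂ :=
  limUnder atTop fun k => ∫ x, f k x * (starRingEnd ℂ) (psi m i x) ∂(mu m)

/-- The partial sums. -/
noncomputable def Sn (f : ℕ → Gm m → ℂ) (n : ℕ) (x : Gm m) : ℂ :=
  ∑ k ∈ range n, coef f k * psi m k x

/-- The Riesz logarithmic means. -/
noncomputable def Rn (f : ℕ → Gm m → ℂ) (n : ℕ) (x : Gm m) : ℂ :=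
  (∑ k ∈ Icc 1 n, Sn f k x / k) / ((∑ k ∈ Icc 1 n, (1 : ℝ) / k : ℝ) : ℂ)

/-- The code of the first `n` digits. -/
def cod (m : ℕ → ℕ) (n : ℕ) (x : Gm m) : ℕ := ∑ k ∈ range n, MM m k * (x k : ℕ)

omit [∀ k, NeZero (m k)] in
lemma cod_succ (n : ℕ) (x : Gm m) : cod m (n + 1) x = cod m n x + MM m n * (x n : ℕ) := by
  unfold cod
  rw [sum_range_succ]

omit [∀ k, NeZero (m k)] in
lemma cod_lt (n : ℕ) (x : Gm m) : cod m n x < MM m n := by
  induction n with
  | zero => simp [cod, MM_zero]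
  | succ n ih =>
    rw [cod_succ, MM_succ]
    have := (x n).isLt
    nlinarith

omit [∀ k, NeZero (m k)] in
lemma dig_cod (hm : ∀ k, 2 ≤ m k) (n : ℕ) (x : Gm m) : ∀ k < n, dig m k (cod m n x) = x k := by
  induction n with
  | zero => intro k hk; omega
  | succ n ih =>
    intro k hk
    rw [cod_succ]
    rcases Nat.lt_succ_iff_lt_or_eq.1 hk with h | rfl
    · rw [dig_add_mul hm h, ih k h]
    · exact dig_top (cod_lt _ x) (x _).isLt

/-- Decoding. -/
def dec (m : ℕ → ℕ) [∀ k, NeZero (m k)] (c : ℕ) : Gm m := fun k => Fin.ofNat (m k) (c / MM m k)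

lemma dec_val (c k : ℕ) : ((dec m c k : Fin (m k)) : ℕ) = dig m k c := rfl

lemma dec_cod (hm : ∀ k, 2 ≤ m k) {f : ℕ → Gm m → ℂ} (hf : IsMart m f) {j n : ℕ} (hj : j ≤ n)
    (x : Gm m) : f j (dec m (cod m n x % MM m j)) = f j x := by
  apply hf.adapted
  intro k hk
  apply Fin.ext
  rw [dec_val, dig_mod hm hk, dig_cod hm n x k (by omega)]

lemma mart_of (hm : ∀ k, 2 ≤ m k) {f : ℕ → Gm m → ℂ} (hf : IsMart m f) :
    Mart m (fun j c => f j (dec m c)) := by
  intro j u hu
  have h1 := hf.average j (dec m u)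
  have hmj : (m j : ℂ) ≠ 0 := by exact_mod_cast (by have := hm j; omega : m j ≠ 0)
  simp only []
  rw [h1, mul_div_cancel₀ _ hmj,
    ← Fin.sum_univ_eq_sum_range (fun d => f (j + 1) (dec m (u + MM m j * d)))]
  apply sum_congr rfl
  intro d _
  apply hf.adapted
  intro k hk
  rcases Nat.lt_succ_iff_lt_or_eq.1 hk with h | rfl
  · rw [Function.update_of_ne (by omega)]
    apply Fin.ext
    rw [dec_val, dec_val, dig_add_mul hm h]
  · rw [Function.update_self]
    apply Fin.ext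
    rw [dec_val]
    exact dig_top hu d.isLt

omit [∀ k, NeZero (m k)] in
lemma measurable_cod (n : ℕ) : Measurable (cod m n) := by
  unfold cod
  apply Finset.measurable_sum
  intro k _
  exact (measurable_of_countable (fun d : Fin (m k) => MM m k * (d : ℕ))).comp
    (measurable_pi_apply k)

instance : IsProbabilityMeasure (mu m) := by
  unfold mu
  infer_instance

lemma measure_cod (hm : ∀ k, 2 ≤ m k) (n c : ℕ) (hc : c < MM m n) :
    mu m {x | cod m n x = c} = (MM m n : ENNReal)⁻¹ := by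
  have h1 : {x : Gm m | cod m n x = c} = Set.pi (range n : Set ℕ) fun k => {dec m c k} := by
    ext x
    constructor
    · intro hx k hk
      have hk' : k < n := by simpa using hk
      rw [Set.mem_singleton_iff]
      apply Fin.ext
      rw [dec_val, ← hx, dig_cod hm n x k hk']
    · intro hx
      change cod m n x = c
      have h2 : ∀ k < n, dig m k (cod m n x) = dig m k c := by
        intro k hk
        have h3 : x k = dec m c k := hx k (by simpa using hk)
        rw [dig_cod hm n x k hk, h3, dec_val]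
      have h3 := digits_ext h2
      rwa [Nat.mod_eq_of_lt (cod_lt n x), Nat.mod_eq_of_lt hc] at h3
  rw [h1]
  unfold mu
  rw [Measure.infinitePi_pi _ (fun k _ => measurableSet_singleton _)]
  have h2 : ∀ k ∈ range n, (PMF.uniformOfFintype (Fin (m k))).toMeasure {dec m c k} =
      (m k : ENNReal)⁻¹ := by
    intro k _
    rw [PMF.toMeasure_apply_singleton _ _ (measurableSet_singleton _),
      PMF.uniformOfFintype_apply, Fintype.card_fin]
  rw [prod_congr rfl h2]
  clear h1 h2 hc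
  induction n with
  | zero => simp [MM_zero]
  | succ n ih =>
    rw [prod_range_succ, ih, MM_succ, Nat.cast_mul, mul_comm,
      ENNReal.mul_inv (Or.inr (by simp)) (Or.inl (by simp))]

lemma lintegral_cod (hm : ∀ k, 2 ≤ m k) (n : ℕ) (F : ℕ → ENNReal) :
    ∫⁻ x, F (cod m n x) ∂(mu m) = (∑ c ∈ range (MM m n), F c) * (MM m n : ENNReal)⁻¹ := by
  classical
  have h1 : ∀ x : Gm m, F (cod m n x) = ∑ c ∈ range (MM m n),
      Set.indicator {x | cod m n x = c} (fun _ => F c) x := by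
    intro x
    rw [sum_eq_single_of_mem (cod m n x) (mem_range.2 (cod_lt n x))]
    · exact (Set.indicator_of_mem (show x ∈ {y | cod m n y = cod m n x} from rfl)
        (fun _ => F (cod m n x))).symm
    · intro c _ hne
      rw [Set.indicator_of_notMem]
      intro h
      exact hne h.symm
  simp_rw [h1]
  have hms : ∀ c, MeasurableSet {x : Gm m | cod m n x = c} := fun c =>
    measurable_cod n (measurableSet_singleton c)
  rw [lintegral_finsetSum _ (fun c _ => (measurable_const.indicator (hms c))), sum_mul]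
  apply sum_congr rfl
  intro c hc
  rw [lintegral_indicator_const (hms c), measure_cod hm n c (mem_range.1 hc)]

lemma integral_cod (hm : ∀ k, 2 ≤ m k) (n : ℕ) (g : ℕ → ℂ) :
    ∫ x, g (cod m n x) ∂(mu m) = (∑ c ∈ range (MM m n), g c) / MM m n := by
  classical
  have h1 : ∀ x : Gm m, g (cod m n x) = ∑ c ∈ range (MM m n),
      Set.indicator {x | cod m n x = c} (fun _ => g c) x := by
    intro x
    rw [sum_eq_single_of_mem (cod m n x) (mem_range.2 (cod_lt n x))]
    · exact (Set.indicator_of_mem (show x ∈ {y | cod m n y = cod m n x} from rfl)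
        (fun _ => g (cod m n x))).symm
    · intro c _ hne
      rw [Set.indicator_of_notMem]
      intro h
      exact hne h.symm
  simp_rw [h1]
  have hms : ∀ c, MeasurableSet {x : Gm m | cod m n x = c} := fun c =>
    measurable_cod n (measurableSet_singleton c)
  rw [integral_finsetSum _ (fun c _ => (integrable_const (g c)).indicator (hms c)), sum_div]
  apply sum_congr rfl
  intro c hc
  rw [integral_indicator_const _ (hms c), Measure.real, measure_cod hm n c (mem_range.1 hc)]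
  rw [ENNReal.toReal_inv, ENNReal.toReal_natCast, Complex.real_smul]
  push_cast
  rw [div_eq_inv_mul]

omit [∀ k, NeZero (m k)] in
lemma psi_eq (hm : ∀ k, 2 ≤ m k) (n i : ℕ) (hi : i < MM m n) (x : Gm m) :
    psi m i x = ch m n i (cod m n x) := by
  have hex : ∀ k, Complex.exp (2 * Real.pi * Complex.I * ((x k : ℕ) : ℝ) / m k) ^ dig m k i =
      ex (dig m k i * (x k : ℕ) / m k) := by
    intro k
    have : ex (dig m k i * (x k : ℕ) / m k) = ex ((x k : ℕ) / m k) ^ dig m k i := by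
      rw [← ex_nat_mul]
      congr 1
      ring
    rw [this]
    congr 1
    unfold ex
    congr 1
    push_cast
    ring
  have h0 : ∀ k, dig m k i = 0 → ex (dig m k i * (x k : ℕ) / m k) = 1 := by
    intro k hk
    rw [hk]
    simp [ex]
  have h1 : psi m i x = ∏ k ∈ range (max n (i + 1)), ex (dig m k i * (x k : ℕ) / m k) := by
    unfold psi
    rw [prod_congr rfl fun k _ => hex k]
    apply prod_subset
    · intro k hk
      exact mem_range.2 (lt_of_lt_of_le (mem_range.1 hk) (le_max_right _ _))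
    · intro k _ hk
      apply h0
      have hi2 : i < MM m (i + 1) := by
        have h2 := two_pow_le hm (i + 1)
        have h3 : i < 2 ^ (i + 1) := (Nat.lt_succ_self i).trans (Nat.lt_two_pow_self)
        omega
      exact dig_eq_zero hi2 (by simpa using hk) hm
  have h2 : ch m n i (cod m n x) = ∏ k ∈ range (max n (i + 1)),
      ex (dig m k i * (x k : ℕ) / m k) := by
    unfold ch
    have h3 : ∏ k ∈ range n, ex (dig m k i * dig m k (cod m n x) / m k) =
        ∏ k ∈ range n, ex (dig m k i * (x k : ℕ) / m k) := by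
      apply prod_congr rfl
      intro k hk
      rw [dig_cod hm n x k (mem_range.1 hk)]
    rw [h3]
    apply prod_subset
    · intro k hk
      exact mem_range.2 (lt_of_lt_of_le (mem_range.1 hk) (le_max_left _ _))
    · intro k _ hk
      apply h0
      exact dig_eq_zero hi (by simpa using hk) hm
  rw [h1, h2]

omit [∀ k, NeZero (m k)] in
lemma fh_succ (hm : ∀ k, 2 ≤ m k) (φ : ℕ → ℕ → ℂ) (hφ : Mart m φ) (n i : ℕ)
    (hi : i < MM m n) : fh m (n + 1) (φ (n + 1)) i = fh m n (φ n) i := by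
  unfold fh
  rw [sum_MM_succ, sum_comm]
  have h1 : ∀ c ∈ range (MM m n), ∑ d ∈ range (m n), φ (n + 1) (c + MM m n * d) *
      (starRingEnd ℂ) (ch m (n + 1) i (c + MM m n * d)) =
      m n * (φ n c * (starRingEnd ℂ) (ch m n i c)) := by
    intro c hc
    have h2 : ∀ d ∈ range (m n), φ (n + 1) (c + MM m n * d) *
        (starRingEnd ℂ) (ch m (n + 1) i (c + MM m n * d)) =
        φ (n + 1) (c + MM m n * d) * (starRingEnd ℂ) (ch m n i c) := by
      intro d hd
      congr 2
      unfold ch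
      rw [prod_range_succ, dig_eq_zero hi le_rfl hm]
      have h3 : ex (((0 : ℕ) : ℝ) * (dig m n (c + MM m n * d) : ℝ) / m n) = 1 := by simp [ex]
      rw [h3, mul_one]
      apply prod_congr rfl
      intro k hk
      rw [dig_add_mul hm (mem_range.1 hk)]
    rw [sum_congr rfl h2, ← sum_mul, hφ n c (mem_range.1 hc)]
    ring
  rw [sum_congr rfl h1, ← mul_sum, MM_succ]
  have h2 : (m n : ℂ) ≠ 0 := by exact_mod_cast (by have := hm n; omega : m n ≠ 0)
  have h3 : (MM m n : ℂ) ≠ 0 := by exact_mod_cast (MM_pos hm n).ne'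
  push_cast
  field_simp

lemma coef_eq (hm : ∀ k, 2 ≤ m k) {f : ℕ → Gm m → ℂ} (hf : IsMart m f) (n i : ℕ)
    (hi : i < MM m n) : coef f i = fh m n (fun c => f n (dec m c)) i := by
  unfold coef
  apply Tendsto.limUnder_eq
  apply tendsto_const_nhds.congr'
  filter_upwards [eventually_ge_atTop n] with k hk
  have h1 : ∀ k, n ≤ k → fh m k (fun c => f k (dec m c)) i = fh m n (fun c => f n (dec m c)) i := by
    intro k hk
    induction k, hk using Nat.le_induction with
    | base => rfl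
    | succ k hk ih =>
      rw [← ih]
      exact fh_succ hm (fun j c => f j (dec m c)) (mart_of hm hf) k i
        (lt_of_lt_of_le hi (Nat.le_of_dvd (MM_pos hm k) (MM_dvd hk)))
  rw [← h1 k hk]
  have hik : i < MM m k := lt_of_lt_of_le hi (Nat.le_of_dvd (MM_pos hm k) (MM_dvd hk))
  have h2 : ∀ x, f k x * (starRingEnd ℂ) (psi m i x) =
      (fun c => f k (dec m c) * (starRingEnd ℂ) (ch m k i c)) (cod m k x) := by
    intro x
    simp only []
    rw [psi_eq hm k i hik]
    congr 1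
    have := dec_cod hm hf (le_refl k) x
    rw [Nat.mod_eq_of_lt (cod_lt k x)] at this
    exact this.symm
  rw [integral_congr_ae (Eventually.of_forall h2),
    integral_cod hm k (fun c => f k (dec m c) * (starRingEnd ℂ) (ch m k i c))]
  rfl

lemma Rn_eq (hm : ∀ k, 2 ≤ m k) {f : ℕ → Gm m → ℂ} (hf : IsMart m f) (n : ℕ) (x : Gm m) :
    Rn f (MM m n) x = Rop m n (fun c => f n (dec m c)) (cod m n x) := by
  unfold Rn Sn Rop
  have h0 : Icc 1 (MM m n) = Ioc 0 (MM m n) := by
    ext k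
    simp only [mem_Icc, mem_Ioc]
    omega
  have hl : (∑ k ∈ Icc 1 (MM m n), (1 : ℝ) / k) = hs 0 (MM m n) := by
    unfold hs
    rw [h0]
  rw [hl]
  have h1 : ∑ k ∈ Icc 1 (MM m n), (∑ i ∈ range k, coef f i * psi m i x) / (k : ℂ) =
      ∑ i ∈ range (MM m n), ∑ k ∈ Ioc i (MM m n), coef f i * psi m i x / (k : ℂ) := by
    simp_rw [sum_div]
    apply sum_comm'
    intro k i
    simp only [mem_Icc, mem_range, mem_Ioc]
    omega
  rw [h1, sum_div]
  apply sum_congr rfl
  intro i hi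
  rw [coef_eq hm hf n i (mem_range.1 hi), psi_eq hm n i (mem_range.1 hi)]
  have h2 : ((hs i (MM m n) : ℝ) : ℂ) = ∑ k ∈ Ioc i (MM m n), 1 / (k : ℂ) := by
    unfold hs
    push_cast
    rfl
  have h3 : ∑ k ∈ Ioc i (MM m n), fh m n (fun c => f n (dec m c)) i * ch m n i (cod m n x) /
      (k : ℂ) = (fh m n (fun c => f n (dec m c)) i * ch m n i (cod m n x)) *
        ((hs i (MM m n) : ℝ) : ℂ) := by
    rw [h2, mul_sum]
    apply sum_congr rfl
    intro k _
    ring
  rw [h3]
  push_cast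
  ring

theorem uniform_bound (m : ℕ → ℕ) [∀ k, NeZero (m k)] (hm : ∀ k, 2 ≤ m k) (hb : ∃ b, ∀ k, m k ≤ b)
    (p : ℝ) (hp : 0 < p) (hp1 : p ≤ 1) :
    ∃ C : NNReal, ∀ f : ℕ → Gm m → ℂ, IsMart m f → ∀ n : ℕ,
      ∫⁻ x, ‖Rn f (MM m n) x‖ₑ ^ p ∂(mu m) ≤ C * ∫⁻ x, (⨆ j, ‖f j x‖ₑ) ^ p ∂(mu m) := by
  obtain ⟨b, hb⟩ := hb
  refine ⟨Real.toNNReal (C1 b p * 2 ^ p + 1), fun f hf n => ?_⟩
  set φ : ℕ → ℕ → ℂ := fun j c => f j (dec m c) with hφ
  have hM := mart_of hm hf
  have h1 := finite_main hm b hb p hp hp1 φ hM n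
  have he : ∀ z : ℂ, ‖z‖ₑ ^ p = ENNReal.ofReal (‖z‖ ^ p) := by
    intro z
    rw [← ofReal_norm, ENNReal.ofReal_rpow_of_nonneg (norm_nonneg _) hp.le]
  have h2 : ∫⁻ x, ‖Rn f (MM m n) x‖ₑ ^ p ∂(mu m) =
      ENNReal.ofReal (∑ c ∈ range (MM m n), ‖Rop m n (φ n) c‖ ^ p) * (MM m n : ENNReal)⁻¹ := by
    simp_rw [Rn_eq hm hf, he]
    rw [lintegral_cod hm n (fun c => ENNReal.ofReal (‖Rop m n (fun c => f n (dec m c)) c‖ ^ p)),
      ENNReal.ofReal_sum_of_nonneg (fun c _ => by positivity)]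
  have h3 : ENNReal.ofReal (∑ c ∈ range (MM m n), Mx m φ n c ^ p) * (MM m n : ENNReal)⁻¹ ≤
      ∫⁻ x, (⨆ j, ‖f j x‖ₑ) ^ p ∂(mu m) := by
    rw [ENNReal.ofReal_sum_of_nonneg (fun c _ => Real.rpow_nonneg (Mx_nonneg φ n c) _),
      ← lintegral_cod hm n (fun c => ENNReal.ofReal (Mx m φ n c ^ p))]
    apply lintegral_mono
    intro x
    simp only []
    obtain ⟨j, hj, hjx⟩ := exists_mem_eq_sup' nonempty_range_add_one
      (fun j => ‖φ j (cod m n x % MM m j)‖) (s := range (n + 1))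
    have h4 : Mx m φ n (cod m n x) = ‖f j x‖ := by
      unfold Mx
      rw [hjx]
      simp only [hφ]
      rw [dec_cod hm hf (Nat.le_of_lt_succ (mem_range.1 hj)) x]
    rw [h4, ← he]
    exact ENNReal.rpow_le_rpow (le_iSup (fun j => ‖f j x‖ₑ) j) hp.le
  have hC : 0 ≤ C1 b p * 2 ^ p + 1 := by
    unfold C1
    have hCC : 0 ≤ CC b p := (Real.exp_pos _).le
    have : (1 / 2 : ℝ) ^ p < 1 := Real.rpow_lt_one (by norm_num) (by norm_num) hp
    have h5 : 0 < 1 - (1 / 2 : ℝ) ^ p := by linarith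
    positivity
  rw [h2]
  calc ENNReal.ofReal (∑ c ∈ range (MM m n), ‖Rop m n (φ n) c‖ ^ p) * (MM m n : ENNReal)⁻¹
      ≤ ENNReal.ofReal ((C1 b p * 2 ^ p + 1) * ∑ c ∈ range (MM m n), Mx m φ n c ^ p) *
        (MM m n : ENNReal)⁻¹ := by gcongr
    _ = ENNReal.ofReal (C1 b p * 2 ^ p + 1) *
        (ENNReal.ofReal (∑ c ∈ range (MM m n), Mx m φ n c ^ p) * (MM m n : ENNReal)⁻¹) := by
        rw [ENNReal.ofReal_mul hC, mul_assoc]
    _ ≤ _ := by
        gcongr
        exact le_rfl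

/-- For every bounded Vilenkin sequence `m` and `0 < p ≤ 1` the Riesz logarithmic means
`R_{M_n}` are uniformly bounded from the martingale Hardy space `H_p(G_m)` to `L_p(G_m)`; in
particular `sup_n ‖R_{M_n} f‖_p < ∞` for every `f ∈ H_p(G_m)`. -/
theorem result (m : ℕ → ℕ) [∀ k, NeZero (m k)] (hm : ∀ k, 2 ≤ m k) (hb : ∃ b, ∀ k, m k ≤ b)
    (p : ℝ) (hp : 0 < p) (hp1 : p ≤ 1) :
    (∃ C : NNReal, ∀ f : ℕ → Gm m → ℂ, IsMart m f → ∀ n : ℕ,
      ∫⁻ x, ‖Rn f (MM m n) x‖ₑ ^ p ∂(mu m) ≤ C * ∫⁻ x, (⨆ j, ‖f j x‖ₑ) ^ p ∂(mu m)) ∧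
    ∀ f : ℕ → Gm m → ℂ, IsMart m f → ∫⁻ x, (⨆ j, ‖f j x‖ₑ) ^ p ∂(mu m) < ⊤ →
      ⨆ n, ∫⁻ x, ‖Rn f (MM m n) x‖ₑ ^ p ∂(mu m) < ⊤ := by
  obtain ⟨C, hC⟩ := uniform_bound m hm hb p hp hp1
  refine ⟨⟨C, hC⟩, fun f hf hfin => ?_⟩
  exact lt_of_le_of_lt (iSup_le fun n => hC f hf n) (ENNReal.mul_lt_top ENNReal.coe_lt_top hfin)

end infinite

end Pool.Agent.Results.MP_c47ae4_an.RieszBounded
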